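import Pool.Agent.L0h61.T5.Bor
import Pool.Agent.L0h61.T3.Lin
import Pool.Agent.L0h86.F5.Def

/-!
# `S_LINC`: the bordered determinant over the field with four elements and the system over the field
with two elements
-/

set_option autoImplicit false
set_option linter.unusedSectionVars false

namespace Pool.Agent.L0h61.T5

open Matrix
open Pool.Agent.L0h86.F3 Pool.Agent.L0h61.T3
open Pool.Agent.L0h86.F5 (Sys8 S_LINC)

lemma w2_eq : (F4.w ^ 2) ^ 2 + F4.w ^ 2 + 1 = 0 := by decide

lemma b_form (a : F4) : a = F4.of a.re + (F4.w ^ 2) ^ 2 * F4.of a.im := by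
  revert a
  decide

lemma tr_im (a : F4) : F4.tr a = a.im := by
  revert a
  decide

/-- the indices -/
noncomputable def eqv {ι : Type} [DecidableEq ι] (S : Finset ι) :
    (S ⊕ Unit) ≃ (Finset.insertNone S : Finset (Option ι)) :=
  Equiv.ofBijective (fun u => match u with
    | Sum.inl i => ⟨some i, Finset.some_mem_insertNone.2 i.2⟩
    | Sum.inr _ => ⟨none, Finset.none_mem_insertNone⟩) (by
    constructor
    · rintro (i | i) (j | j) h
      · have h1 := congrArg Subtype.val h
        exact congrArg Sum.inl (Subtype.ext (Option.some_injective _ h1))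
      · exact absurd (congrArg Subtype.val h) (by simp)
      · exact absurd (congrArg Subtype.val h) (by simp)
      · rfl
    · rintro ⟨o, ho⟩
      cases o with
      | none => exact ⟨Sum.inr (), rfl⟩
      | some i => exact ⟨Sum.inl ⟨i, Finset.some_mem_insertNone.1 ho⟩, rfl⟩)

/-- the determinant `gk` with one more index -/
lemma gk_none {k : Type} [CommRing k] {ι : Type} [DecidableEq ι] (S : Finset ι) (c : Option ι → k)
    (r : Option ι → Option ι → k) :
    gk c r (Finset.insertNone S) = (fromBlocks
      (Matrix.of fun i j : S => if i = j then c (some i) + (r (some i) none +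
        ∑ k ∈ S.erase (i : ι), r (some i) (some k)) else r (some i) (some j))
      (col fun i : S => r (some i) none) (row fun j : S => r none (some j))
      (sc (c none + ∑ k ∈ S, r none (some k)))).det := by
  unfold gk
  rw [← Matrix.det_submatrix_equiv_self (eqv S)]
  congr 1
  refine Matrix.ext fun u v => ?_
  rw [Matrix.submatrix_apply, Matrix.of_apply]
  have hS : ∀ i : S, (Finset.insertNone S).erase (some (i : ι)) =
      Finset.insertNone (S.erase (i : ι)) := by
    intro i
    ext o
    cases o with
    | none => simp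
    | some j => simp [Finset.mem_erase]
  have hN : (Finset.insertNone S).erase none = S.map Function.Embedding.some := by
    ext o
    cases o with
    | none => simp
    | some j => simp
  rcases u with i | i <;> rcases v with j | j
  · rw [Matrix.fromBlocks_apply₁₁, Matrix.of_apply]
    by_cases hij : i = j
    · subst hij
      rw [if_pos rfl, if_pos rfl]
      show c (some i) + ∑ k ∈ (Finset.insertNone S).erase (some (i : ι)), r (some i) k = _
      rw [hS, Finset.sum_insertNone]
    · rw [if_neg hij, if_neg fun e => hij (Sum.inl_injective ((eqv S).injective e))]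
      rfl
  · rw [Matrix.fromBlocks_apply₁₂, if_neg fun e => by
      have := (eqv S).injective e
      cases this]
    rfl
  · rw [Matrix.fromBlocks_apply₂₁, if_neg fun e => by
      have := (eqv S).injective e
      cases this]
    rfl
  · rw [Matrix.fromBlocks_apply₂₂, if_pos rfl]
    show c none + ∑ k ∈ (Finset.insertNone S).erase none, r none k = _
    rw [hN, Finset.sum_map]
    rfl

/-- the row sums -/
def cO {ι : Type} (b : ι → F4) (t : ZMod 2) : Option ι → F4
  | some i => b i
  | none => F4.of t

/-- the entries -/
def rO {ι : Type} (b : ι → F4) (m : ι → ι → ZMod 2) (e : ι → ZMod 2) (t : ZMod 2) :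
    Option ι → Option ι → F4
  | some i, some j => F4.of (m i j)
  | some i, none => F4.of (e i + t * F4.tr (b i))
  | none, some j => F4.of (e j)
  | none, none => 0

/-- the bordered determinant and the system -/
theorem linc {ι : Type} [DecidableEq ι] (S : Finset ι) (c : ι → ι) (b : ι → F4)
    (m : ι → ι → ZMod 2) (e : ι → ZMod 2) (ε t : ZMod 2) (hc1 : ∀ i ∈ S, c i ∈ S)
    (hc2 : ∀ i ∈ S, c (c i) = i) (hcb : ∀ i ∈ S, b (c i) = F4.cj (b i))
    (hcm : ∀ i ∈ S, ∀ j ∈ S, i ≠ j → m (c i) (c j) = m i j)
    (hrec : ∀ i ∈ S, ∀ j ∈ S, i ≠ j → m i j + m j i = F4.tr (b i * b j))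
    (hec : ∀ i ∈ S, e (c i) = e i) (hef : ∀ i ∈ S, c i = i → e i = 0)
    (hsum : ∑ i ∈ S, b i = F4.of (ε + 1 + t)) :
    gk (cO b t) (rO b m e t) (Finset.insertNone S) ≠ 0 ↔ Sys8 S c b m e ε t := by
  set cs : S → S := fun i => ⟨c i, hc1 i i.2⟩ with hcs
  have hs : Sys (κ := S) (fun i j => m i j) (fun i => (b i).im) (fun i => (b i).re) cs :=
    { rcp := fun i j hij => by
        rw [hrec i i.2 j j.2 fun e => hij (Subtype.ext e), T3.tr_mul]
      sumn := by
        rw [Finset.sum_coe_sort S (fun i => (b i).im), ← im_sum, hsum]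
        rfl
      cinv := fun i => Subtype.ext (hc2 i i.2)
      cn := fun i => by
        show (b (c i)).im = _
        rw [hcb i i.2]
        rfl
      ct := fun i => by
        show (b (c i)).re = _
        rw [hcb i i.2]
        rfl
      cm := fun i j hij => hcm i i.2 j j.2 fun e => hij (Subtype.ext e) }
  have hd : ∑ i : S, (b i).re = ε + 1 + t := by
    rw [Finset.sum_coe_sort S (fun i => (b i).re), ← re_sum, hsum]
    rfl
  have he0 : ∑ i ∈ S, e i = 0 := by
    refine Finset.sum_involution (fun i _ => c i) ?_ ?_ (fun i hi => hc1 i hi)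
      (fun i hi => hc2 i hi)
    · intro i hi
      rw [hec i hi]
      exact z2 _
    · intro i hi hne e
      exact hne (hef i hi e)
  have he : ∑ i : S, e i = 0 := by
    rw [Finset.sum_coe_sort S e]
    exact he0
  set f : S → ZMod 2 := fun i => e i + t * (b i).im with hf
  have h1 := det_HB (e := fun i : S => e i) (f := f) (g := t) hs he fun i => rfl
  have h2 := det_GB (e := fun i : S => e i) (f := f) (g := t) F4.of hs w2_eq he
    (fun i => hec i i.2) fun i => rfl
  have eG : gk (cO b t) (rO b m e t) (Finset.insertNone S) =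
      (GB (κ := S) (fun i j => m i j) (fun i => (b i).im) (fun i => (b i).re) F4.of (F4.w ^ 2)
        (fun i => e i) f t).det := by
    rw [gk_none]
    unfold GB
    congr 1
    congr 1
    · refine Matrix.ext fun i j => ?_
      rw [Matrix.of_apply, Matrix.add_apply]
      unfold Gm
      rw [Matrix.of_apply]
      by_cases hij : i = j
      · subst hij
        rw [if_pos rfl, if_pos rfl, Matrix.diagonal_apply_eq, Function.comp_apply,
          sum_subL S i (fun k => F4.of (m i k)), ← b_form]
        show b i + (F4.of (e i + t * F4.tr (b i)) + _) = _ + F4.of (e i + t * (b i).im)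
        rw [tr_im]
        show b i + (_ + ∑ k ∈ S.erase (i : ι), F4.of (m i k)) = _
        ring
      · rw [if_neg hij, if_neg hij, Matrix.diagonal_apply_ne _ hij, add_zero]
        rfl
    · refine Matrix.ext fun i j => ?_
      show F4.of t + ∑ k ∈ S, F4.of (e k) = F4.of t
      rw [← map_sum, he0, map_zero, add_zero]
  rw [eG, h2, ← h1, of_ne]
  have key : ∀ (x : ι → ZMod 2) (a : ZMod 2) (j : S),
      ((HB (κ := S) (fun i j => m i j) (fun i => (b i).im) (fun i => (b i).re) cs
        (fun i => e i) f t) *ᵥ (Sum.elim (fun i => x i) fun _ => a)) (Sum.inl j) =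
      ∑ i ∈ S.erase j, m i j * x i +
      (∑ i ∈ S.erase j, m i j + e j + (1 + ε) * F4.tr (b j) + F4.tr (F4.w * b j)) * x j +
      F4.tr (b j) * x (c j) + e j * a := by
    intro x a j
    unfold HB
    rw [Matrix.fromBlocks_mulVec, Sum.elim_inl, Pi.add_apply, Matrix.add_mulVec, Pi.add_apply, hd]
    have hcol : (col (fun i : S => e i) *ᵥ ((Sum.elim (fun i : S => x i) fun _ => a) ∘ Sum.inr)) j =
        e j * a := by
      unfold Matrix.mulVec dotProduct
      simp
    have hdia : (diagonal f *ᵥ ((Sum.elim (fun i : S => x i) fun _ : Unit => a) ∘ Sum.inl)) j =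
        f j * x j := by
      rw [Matrix.mulVec_diagonal]
      rfl
    rw [hcol, hdia]
    have hH : ((Hm (κ := S) (fun i j => m i j) (fun i => (b i).im) (fun i => (b i).re) cs
        (ε + 1 + t)) *ᵥ ((Sum.elim (fun i : S => x i) fun _ : Unit => a) ∘ Sum.inl)) j =
        ∑ i ∈ S.erase j, m i j * x i +
        (∑ i ∈ S.erase j, m i j + F4.tr (F4.w * b j) + (ε + 1 + t) * F4.tr (b j)) * x j +
        F4.tr (b j) * x (c j) := by
      unfold Matrix.mulVec dotProduct
      unfold Hm
      simp only [Matrix.of_apply, add_mul, Finset.sum_add_distrib, ite_mul, zero_mul,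
        Function.comp_apply, Sum.elim_inl]
      rw [Finset.sum_ite_eq Finset.univ (cs j) (fun i => (b j).im * x i),
        if_pos (Finset.mem_univ _)]
      rw [← Finset.add_sum_erase Finset.univ _ (Finset.mem_univ j), if_pos rfl]
      have e1 : ∑ i ∈ (Finset.univ : Finset S).erase j,
          (if i = j then (∑ k ∈ Finset.univ.erase j, m k j) * x i + (ε * (b j).im * x i +
            1 * (b j).im * x i + t * (b j).im * x i) +
            ((b j).re * x i + (b j).im * x i) else m i j * x i) =
          ∑ i ∈ (Finset.univ : Finset S).erase j, m i j * x i := by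
        refine Finset.sum_congr rfl fun i hi => ?_
        rw [if_neg (Finset.mem_erase.1 hi).1]
      rw [e1, sum_subL S j (fun i => m i j * x i), sum_subL S j (fun i => m i j), tr_w, tr_im]
      show _ + (b j).im * x (c j) = _ + (b j).im * x (c j)
      ring
    rw [hH, tr_im (b j), hf]
    linear_combination z2 (t * (b j).im * x j)
  have key2 : ∀ (x : ι → ZMod 2) (a : ZMod 2),
      ((HB (κ := S) (fun i j => m i j) (fun i => (b i).im) (fun i => (b i).re) cs
        (fun i => e i) f t) *ᵥ (Sum.elim (fun i => x i) fun _ => a)) (Sum.inr ()) =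
      ∑ i ∈ S, F4.tr (F4.w * b i) * x i + t * a := by
    intro x a
    unfold HB
    rw [Matrix.fromBlocks_mulVec, Sum.elim_inr, Pi.add_apply]
    congr 1
    · unfold Matrix.mulVec dotProduct
      rw [← Finset.sum_coe_sort S]
      refine Finset.sum_congr rfl fun i _ => ?_
      rw [tr_w]
      rfl
    · unfold Matrix.mulVec dotProduct
      simp
  constructor
  · intro hdet x a hx hx2
    by_contra hne
    apply hdet
    rw [← Matrix.exists_mulVec_eq_zero_iff]
    refine ⟨Sum.elim (fun i => x i) fun _ => a, fun h0 => hne ⟨fun j hj => ?_, ?_⟩, ?_⟩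
    · exact congrFun h0 (Sum.inl ⟨j, hj⟩)
    · exact congrFun h0 (Sum.inr ())
    · funext u
      rcases u with j | j
      · rw [key x a j]
        exact hx j j.2
      · exact (key2 x a).trans hx2
  · intro hns hdet
    obtain ⟨v, hv, h0⟩ := Matrix.exists_mulVec_eq_zero_iff.2 hdet
    apply hv
    set x : ι → ZMod 2 := fun i => if hi : i ∈ S then v (Sum.inl ⟨i, hi⟩) else 0 with hx
    set a : ZMod 2 := v (Sum.inr ()) with ha
    have hxv : Sum.elim (fun i : S => x i) (fun _ => a) = v := by
      funext u
      rcases u with i | i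
      · rw [Sum.elim_inl, hx]
        beta_reduce
        rw [dif_pos i.2]
      · rfl
    have h1 := hns x a (fun j hj => by
      have h2 := key x a ⟨j, hj⟩
      rw [hxv, h0] at h2
      exact h2.symm) (by
      have h2 := key2 x a
      rw [hxv, h0] at h2
      exact h2.symm)
    funext u
    rw [← hxv]
    rcases u with i | i
    · exact h1.1 i i.2
    · exact h1.2

/-- **the bordered determinant and the system** -/
theorem t_LINC : S_LINC := by
  intro ι _ S c b m e ε t hc1 hc2 hcb hcm hrec hec hef hsum
  exact linc S c b m e ε t hc1 hc2 hcb hcm hrec hec hef hsum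

end Pool.Agent.L0h61.T5
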