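import Pool.Agent.L0h61.T5.KerC
import Pool.Agent.L0h61.T3.Cs
import Pool.Agent.L0h4.T3.Cvm

/-!
# The algebraic converse for `y² = x³ - 8 m³`
-/

set_option autoImplicit false
set_option linter.unusedSectionVars false

namespace Pool.Agent.L0h61.T5

open Pool.Agent.Y696 Pool.Agent.Y715.T.Lat Pool.Agent.W192.HK
open Pool.Agent.L0h86.F3
open NumberField IsDedekindDomain IsCyclotomicExtension.Rat WithZero WeierstrassCurve
open Pool.Agent.H921R2.TatePole Pool.Agent.H82R3.EK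
open Pool.Agent.L0h4.TC (LocZ SqZ PtZ)
open Pool.Agent.Y698.SG (lg lg_one lg_neg_one lg_mul sgn_mul sgn_prod ix)
open Pool.Agent.Y698.SG.Cv (WF)
open Pool.Agent.TH841.NF.D (Sha)
open Pool.Agent.Y700 (VR)
open Pool.Agent.L0h80.F3 (N1_prod ix_cases fx prod_pf sum_bt mem_ix bt_cj cj_neg cj_add cj_ez)
open Pool.Agent.L0h23.FDE (cI eD cI_mem cI_cI pf_cI)
open Pool.Agent.L0h4.T3 (SG nz nz_ez nz_mul nz_int nz_neg nz_pos zT TT mem_TT TT_sub sum_TT sg_neg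
  sg_la sg_zT nb_self nb_cI z2_self z2 cx cy cx_ez cy_ez D_ne' N1_zT nz_zT eps_prod D3 zT_prime
  la_zT la_nzT n1_of n2_of la_prime la_dvd_iff)
open Pool.Agent.L0h86.F5 (e2 tm g8 cB rB Cr8 Sys8)
open Pool.Agent.L0h4.T4 (WC WC_Δ)

/-! ### the curve -/

lemma vr_WC (K : Type) [Field K] (m : ℕ) :
    VR (WF K (-3 * (-2 * (m : ℤ))) (3 * (-2 * (m : ℤ)) ^ 2)) (WC K m) 1 (-2 * (m : K)) 0 0 where
  u0 := one_ne_zero
  e1 := by
    show (1 : K) * 0 = 0 + 2 * 0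
    ring
  e2 := by
    show (1 : K) ^ 2 * 0 = ((-3 * (-2 * (m : ℤ)) : ℤ) : K) - 0 * 0 + 3 * (-2 * (m : K)) - 0 ^ 2
    push_cast
    ring
  e3 := by
    show (1 : K) ^ 3 * 0 = 0 + (-2 * (m : K)) * 0 + 2 * 0
    ring
  e4 := by
    show (1 : K) ^ 4 * 0 = ((3 * (-2 * (m : ℤ)) ^ 2 : ℤ) : K) - 0 * 0 +
      2 * (-2 * (m : K)) * ((-3 * (-2 * (m : ℤ)) : ℤ) : K) - (0 + (-2 * (m : K)) * 0) * 0 +
      3 * (-2 * (m : K)) ^ 2 - 2 * 0 * 0
    push_cast
    ring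
  e6 := by
    show (1 : K) ^ 6 * (-(8 * (m : K) ^ 3)) = 0 + (-2 * (m : K)) * ((3 * (-2 * (m : ℤ)) ^ 2 : ℤ) : K) +
      (-2 * (m : K)) ^ 2 * ((-3 * (-2 * (m : ℤ)) : ℤ) : K) + (-2 * (m : K)) ^ 3 - 0 * 0 - 0 ^ 2 -
      (-2 * (m : K)) * 0 * 0
    push_cast
    ring

lemma WC_ne (K : Type) [Field K] [CharZero K] {m : ℕ} (hm : m ≠ 0) : (WC K m).Δ ≠ 0 := by
  rw [WC_Δ]
  have : (m : K) ≠ 0 := Nat.cast_ne_zero.2 hm
  refine neg_ne_zero.2 (mul_ne_zero ?_ (pow_ne_zero _ this))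
  norm_num

/-! ### the prime two -/

/-- the local condition at two -/
theorem two_step {m : ℕ} (hm : m % 2 = 1) {z : eis} (hz : N1 z) {a : ZMod 2}
    (h1 : k8 (nz z) + tm m * (bt z).im + (bt z).re = 0) (h2 : (bt z).re + tm m * a = 0) :
    Pool.Agent.L0h4.T3.LZ ℚ_[2] (-2 * (m : ℤ)) ((-2) ^ a.val * z) := by
  obtain ⟨u, rfl⟩ := hz
  have e1 : (1 + 2 * la * u : eis) = 1 + 2 * (la * u) := by ring
  rw [e1, bt_eq] at h1 h2
  rw [e1]
  obtain ⟨r, s, hab⟩ := ez_ex (la * u)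
  rw [hab, rho_ez] at h1 h2
  rw [hab]
  replace h2 : (r : ZMod 2) + tm m * a = 0 := h2
  have ezh : (1 + 2 * ez r s : eis) = ez (1 + 2 * r) (2 * s) := by
    unfold ez
    push_cast
    ring
  rw [ezh, nz_ez] at h1
  have ev : ∀ x : ℤ, x % 2 = 0 → (x : ZMod 2) = 0 := fun x hx =>
    (ZMod.intCast_zmod_eq_zero_iff_dvd x 2).2 (by push_cast; omega)
  have od : ∀ x : ℤ, x % 2 = 1 → (x : ZMod 2) = 1 := fun x hx => by
    have : (x : ZMod 2) = ((1 : ℤ) : ZMod 2) := by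
      rw [ZMod.intCast_eq_intCast_iff]
      show x % 2 = 1 % 2
      omega
    rw [this, Int.cast_one]
  have hn : ∀ r0 s0 : ℤ, r % 2 = r0 → s % 4 = s0 →
      k8 ((1 + 2 * r) ^ 2 - (1 + 2 * r) * (2 * s) + (2 * s) ^ 2) =
      k8 ((1 + 2 * r0) ^ 2 - (1 + 2 * r0) * (2 * s0) + (2 * s0) ^ 2) := by
    intro r0 s0 hr hs
    obtain ⟨r', hr'⟩ : ∃ r', r = 2 * r' + r0 := ⟨r / 2, by omega⟩
    obtain ⟨s', hs'⟩ : ∃ s', s = 4 * s' + s0 := ⟨s / 4, by omega⟩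
    have e : (1 + 2 * r) ^ 2 - (1 + 2 * r) * (2 * s) + (2 * s) ^ 2 =
        (1 + 2 * r0) ^ 2 - (1 + 2 * r0) * (2 * s0) + (2 * s0) ^ 2 +
        8 * ((1 + 2 * r0) * r' + 2 * r' ^ 2 - (1 + 2 * r0) * s' - r' * s0 - 4 * r' * s' +
          4 * s0 * s' + 8 * s' ^ 2) := by
      rw [hr', hs']
      ring
    rw [k8_mod, e, Int.add_mul_emod_self_left, ← k8_mod]
  have hr : r % 2 = 0 ∨ r % 2 = 1 := by omega
  have hs : s % 4 = 0 ∨ s % 4 = 1 ∨ s % 4 = 2 ∨ s % 4 = 3 := by omega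
  have hcond : (a = 0 → r % 2 = 0 ∧ (s % 4 = 0 ∨ (s + m) % 4 = 0)) ∧
      (a = 1 → ((m : ℤ) % 4 = 3 ∧ r % 2 = 0 ∧ (s % 4 = 0 ∨ s % 4 = 1) ∨
      (m : ℤ) % 4 = 1 ∧ r % 2 = 1 ∧ (s % 4 = 2 ∨ s % 4 = 3))) := by
    have ht : tm m = 1 ∧ m % 4 = 1 ∨ tm m = 0 ∧ m % 4 = 3 := by
      unfold tm
      by_cases h4 : m % 4 = 1
      · exact Or.inl ⟨if_pos h4, h4⟩
      · exact Or.inr ⟨if_neg h4, by omega⟩
    rcases hr with hr | hr <;> rcases hs with hs | hs | hs | hs <;>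
      rw [hn _ _ hr hs] at h1 <;>
      (first | rw [ev r hr] at h1 h2 | rw [od r hr] at h1 h2) <;>
      (first | rw [ev s (by omega)] at h1 | rw [od s (by omega)] at h1) <;>
      rcases ht with ⟨h3, h4⟩ | ⟨h3, h4⟩ <;> rw [h3] at h1 h2 <;>
      rcases z2 a with ha | ha <;> rw [ha] at h2 ⊢ <;>
      first
        | (exfalso; revert h1 h2; decide)
        | (refine ⟨fun _ => ?_, fun h5 => absurd h5 (by decide)⟩; omega)
        | (refine ⟨fun h5 => absurd h5 (by decide), fun _ => ?_⟩; omega)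
  rcases z2 a with ha | ha
  · rw [ha, ZMod.val_zero, pow_zero, one_mul, ezh]
    obtain ⟨h3, h4⟩ := hcond.1 ha
    exact t_C2C0 (by omega) h3 h4
  · rw [ha, show ZMod.val (1 : ZMod 2) = 1 from rfl, pow_one]
    have e3 : (-2 : eis) * (1 + 2 * ez r s) = ez (-2 * (1 + 2 * r)) (-4 * s) := by
      unfold ez
      push_cast
      ring
    rw [e3]
    exact t_C2C1 (by omega) (hcond.2 ha)

/-! ### all primes -/

section
variable {Q P : Finset ℕ} {ϖ : ℕ → eis} {T : Finset (ℕ × Bool)} {m : ℕ}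

lemma odd_m (h : Dt Q P ϖ) (hm : m = ∏ q ∈ Q ∪ P, q) : m % 2 = 1 := by
  rw [← Nat.odd_iff, hm]
  refine Finset.prod_induction _ Odd (fun _ _ => Odd.mul) odd_one fun q hq => ?_
  rcases Finset.mem_union.1 hq with h1 | h1
  · exact Nat.odd_iff.2 (h.q q h1).odd
  · have h2 := h.p q h1
    refine h2.pr.odd_of_ne_two ?_
    rintro rfl
    have := h2.m3
    omega

lemma eps_prodC (h : Dt Q P ϖ) (hm : m = ∏ q ∈ Q ∪ P, q) :
    ((-2 * (m : ℤ) : ℤ) : eis) = (-2) * ((-1) ^ (eD m).val * ∏ i ∈ ix Q P, pf Q ϖ i) := by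
  rw [← eps_prod h hm]
  push_cast
  ring

lemma two_inert : Prime (2 : eis) := by
  have h := Pool.Agent.L0h4.T3.inert_prime Nat.prime_two rfl
  exact_mod_cast h

lemma two_nd (hT : T ⊆ ix Q P) (h : Dt Q P ϖ) : ¬ (2 : eis) ∣ zT Q ϖ T := by
  intro h1
  obtain ⟨u, hu⟩ := N1_zT h hT
  apply two_inert.not_isUnit
  apply isUnit_of_dvd_one
  have e : (1 : eis) = zT Q ϖ T - 2 * (la * u) := by rw [hu]; ring
  rw [e]
  exact dvd_sub h1 (dvd_mul_right _ _)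

lemma la_dvd3 : (la : eis) ∣ 3 := by
  refine ⟨-la, ?_⟩
  have h := Pool.Agent.L0h4.T3.norm_cj la (n := 3) (by
    unfold la
    rw [Pool.Agent.L0h23.FR.normSq_ez]
    norm_num)
  have h2 : Pool.Agent.Y696.cj la = -la := by
    unfold la
    rw [cj_ez]
    unfold ez
    push_cast
    ring
  rw [h2] at h
  rw [h]
  push_cast
  rfl

lemma la_zC (h : Dt Q P ϖ) (hT : T ⊆ ix Q P) (a : ZMod 2) : la ∣ zC Q ϖ T a - 1 := by
  have h1 := la_zT h hT
  unfold zC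
  rcases z2 a with rfl | rfl
  · rw [ZMod.val_zero, pow_zero, one_mul]
    exact h1
  · rw [show ZMod.val (1 : ZMod 2) = 1 from rfl, pow_one]
    have e : -2 * zT Q ϖ T - 1 = -2 * (zT Q ϖ T - 1) - 3 := by ring
    rw [e]
    exact dvd_sub (h1.mul_left _) la_dvd3

lemma la_nzC (h : Dt Q P ϖ) (hT : T ⊆ ix Q P) (a : ZMod 2) : ¬ la ∣ zC Q ϖ T a := by
  intro h1
  have h2 := dvd_sub h1 (la_zC h hT a)
  rw [sub_sub_cancel] at h2
  exact la_prime.not_isUnit (isUnit_of_dvd_one h2)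

lemma nz_zC (a : ZMod 2) : nz (zC Q ϖ T a) ∣ 4 * nz (zT Q ϖ T) := by
  unfold zC
  rcases z2 a with rfl | rfl
  · rw [ZMod.val_zero, pow_zero, one_mul]
    exact dvd_mul_left _ _
  · rw [show ZMod.val (1 : ZMod 2) = 1 from rfl, pow_one, nz_mul]
    have e : nz (-2 : eis) = 4 := by
      have := nz_int (-2)
      push_cast at this
      exact this
    rw [e]

/-- locally solvable everywhere -/
theorem loc_evC (h : Dt Q P ϖ) (hm : m = ∏ q ∈ Q ∪ P, q) {x : ℕ × Bool → ZMod 2} {a : ZMod 2}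
    (hK : Kc Q P ϖ (eD m) (tm m) x a) (p : ℕ) [hp : Fact p.Prime] :
    Pool.Agent.L0h4.T3.LZ ℚ_[p] (-2 * (m : ℤ)) (zC Q ϖ (TT Q P x) a) := by
  classical
  have hDN := D_ne' h hm
  have hm2 := odd_m h hm
  have hDZ : -2 * ((m : ℕ) : ℤ) ≠ 0 := by
    have : ((m : ℕ) : ℤ) ≠ 0 := by exact_mod_cast hDN
    exact mul_ne_zero (by norm_num) this
  have hpr := eps_prodC h hm
  by_cases h2 : p = 2
  · subst h2
    obtain ⟨h3, h4⟩ := sum_eqC h hK (sum_btm h hm hm2)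
    exact two_step hm2 (N1_zT h (TT_sub x)) h3 h4
  by_cases h3 : p = 3
  · subst h3
    exact Pool.Agent.L0h61.T3.t_C3 hp _ _ hDZ (la_zC h (TT_sub x) a)
  by_cases hQ : p ∈ Q
  · have hI := h.q p hQ
    have hj : (p, false) ∈ ix Q P := mem_ix.2 (Or.inl ⟨rfl, hQ⟩)
    have hc : cI Q (p, false) = (p, false) := if_pos hQ
    have hpf : pf Q ϖ (p, false) = -(p : eis) := if_pos hQ
    have hπ := ((fx h).pd _ hj).pr
    refine Pool.Agent.L0h61.T3.t_CI p _ _ hI.odd hI.m3 hDZ ?_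
    rcases z2 (x (p, false)) with h5 | h5
    · left
      have h6 := sy_outC h hK hj h5
      rw [hc, h5, ZMod.val_zero, pow_zero, one_mul, hpf] at h6
      exact h6
    · right
      obtain ⟨z₁, D₁, e1, e2, e3⟩ := sy_inC h hK hj h5 hpr
      rw [hc, h5, show ZMod.val (1 : ZMod 2) = 1 from rfl, pow_one, sy_mul' hπ] at e3
      have e4 : sy (pf Q ϖ (p, false)) (-1) = 1 := by
        refine (sg_neg h hj).1.one ?_
        rw [(sg_neg h hj).2, nb_self h hj hc]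
      rw [e4, one_mul] at e3
      rw [hpf] at e1 e2 e3
      exact ⟨z₁, D₁, e1, e2, e3⟩
  by_cases hP : p ∈ P
  · have hi : (p, false) ∈ ix Q P := mem_ix.2 (Or.inr hP)
    have hj : (p, true) ∈ ix Q P := mem_ix.2 (Or.inr hP)
    have hPm : p ∈ Q ∪ P := Finset.mem_union_right _ hP
    have hci : cI Q (p, false) = (p, true) := if_neg hQ
    have hcj : cI Q (p, true) = (p, false) := if_neg hQ
    have hpi : pf Q ϖ (p, false) = ϖ p := if_neg hQ
    have hpj : pf Q ϖ (p, true) = cj (ϖ p) := if_neg hQ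
    have hDe : m = p * ∏ q ∈ (Q ∪ P).erase p, q := by
      rw [hm, Finset.mul_prod_erase (Q ∪ P) (fun q => q) hPm]
    refine Pool.Agent.L0h61.T3.t_CS p _ (-2 * ((∏ q ∈ (Q ∪ P).erase p, q : ℕ) : ℤ)) _ (ϖ p)
      (h.p p hP).m3 ?_ ?_ (h.nm p hP) (x (p, false)) (x (p, true)) ?_ ?_ ?_ ?_
    · have h5 : ((m : ℕ) : ℤ) = (p : ℤ) * ((∏ q ∈ (Q ∪ P).erase p, q : ℕ) : ℤ) := by
        exact_mod_cast hDe
      rw [h5]
      ring
    · intro h5
      have hpp := Nat.prime_iff_prime_int.1 hp.out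
      rcases hpp.dvd_or_dvd h5 with h7 | h7
      · rw [dvd_neg] at h7
        have h8 : p ∣ 2 := by exact_mod_cast h7
        exact h2 ((Nat.prime_dvd_prime_iff_eq hp.out Nat.prime_two).1 h8)
      · have h6 : p ∣ ∏ q ∈ (Q ∪ P).erase p, q := by exact_mod_cast h7
        obtain ⟨q, hq, hpq⟩ := (Prime.dvd_finsetProd_iff hp.out.prime _).1 h6
        rw [Finset.mem_erase, Finset.mem_union] at hq
        have hqp : q.Prime := hq.2.elim (fun h7 => (h.q q h7).pr) (fun h7 => (h.p q h7).pr)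
        exact hq.1 ((Nat.prime_dvd_prime_iff_eq hp.out hqp).1 hpq).symm
    · intro h5
      have h6 := sy_outC h hK hi h5
      rw [hci, hpi] at h6
      exact h6
    · intro h5
      have h6 := sy_inC h hK hi h5 hpr
      rw [hci, hpi] at h6
      exact h6
    · intro h5
      have h6 := sy_outC h hK hj h5
      rw [hcj, hpj] at h6
      exact h6
    · intro h5
      have h6 := sy_inC h hK hj h5 hpr
      rw [hcj, hpj] at h6
      exact h6
  have hpD : ¬ p ∣ m := by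
    rw [hm]
    intro h5
    obtain ⟨q, hq, hpq⟩ := (Prime.dvd_finsetProd_iff hp.out.prime _).1 h5
    rw [Finset.mem_union] at hq
    have hqp : q.Prime := hq.elim (fun h7 => (h.q q h7).pr) (fun h7 => (h.p q h7).pr)
    have h6 := (Nat.prime_dvd_prime_iff_eq hp.out hqp).1 hpq
    rw [← h6] at hq
    exact hq.elim hQ hP
  have hpp := Nat.prime_iff_prime_int.1 hp.out
  have hp2 : ¬ (p : ℤ) ∣ 2 := by
    intro h7
    have h8 : p ∣ 2 := by exact_mod_cast h7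
    exact h2 ((Nat.prime_dvd_prime_iff_eq hp.out Nat.prime_two).1 h8)
  refine Pool.Agent.L0h61.T3.t_CG p _ _ h2 h3 (fun h5 => ?_) ?_
  · rcases hpp.dvd_or_dvd h5 with h7 | h7
    · rw [dvd_neg] at h7
      exact hp2 h7
    · exact hpD (by exact_mod_cast h7)
  · intro h5
    have h6 : (p : ℤ) ∣ nz (zC Q ϖ (TT Q P x) a) := h5
    rcases hpp.dvd_or_dvd (h6.trans (nz_zC a)) with h7 | h7
    · have h8 : (4 : ℤ) = 2 * 2 := by norm_num
      rw [h8] at h7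
      rcases hpp.dvd_or_dvd h7 with h7 | h7 <;> exact hp2 h7
    · have h8 := hpp.dvd_of_dvd_pow (h7.trans (nz_zT h hm (TT_sub x)))
      exact hpD (by exact_mod_cast h8)

/-- a prime which divides the element exactly once -/
lemma zC_prime (h : Dt Q P ϖ) {ε t : ZMod 2} {x : ℕ × Bool → ZMod 2} {a : ZMod 2}
    (hK : Kc Q P ϖ ε t x a) :
    ∃ π : eis, Prime π ∧ π ∣ zC Q ϖ (TT Q P x) a ∧ ¬ π ^ 2 ∣ zC Q ϖ (TT Q P x) a := by
  unfold zC
  rcases z2 a with rfl | rfl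
  · have hne : (TT Q P x).Nonempty := by
      rcases hK.nz with ⟨i, hi, h1⟩ | h1
      · exact ⟨i, mem_TT.2 ⟨hi, (z2 (x i)).resolve_left h1⟩⟩
      · exact absurd rfl h1
    obtain ⟨π₁, p1, a1, b1⟩ := zT_prime h (TT_sub x) hne
    rw [ZMod.val_zero, pow_zero, one_mul]
    exact ⟨π₁, p1, a1, b1⟩
  · rw [show ZMod.val (1 : ZMod 2) = 1 from rfl, pow_one]
    refine ⟨2, two_inert, ⟨-zT Q ϖ (TT Q P x), by ring⟩, ?_⟩
    rintro ⟨k, hk⟩
    apply two_nd (TT_sub x) h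
    refine ⟨-k, ?_⟩
    apply mul_left_cancel₀ two_inert.ne_zero
    linear_combination -hk

/-- **the converse, with the system** -/
theorem conv_sysC (h : Dt Q P ϖ) (hm : m = ∏ q ∈ Q ∪ P, q)
    (hns : ¬ Sys8 (ix Q P) (cI Q) (fun i => bt (pf Q ϖ i)) (mm (pf Q ϖ)) (e2 (pf Q ϖ)) (eD m) (tm m))
    (hf : Finite (WC ℚ m).toAffine.Point) :
    ∃ y : Sha (WC ℚ m), y ≠ 0 ∧ y + y = 0 := by
  classical
  obtain ⟨x, a, hK⟩ := exists_Kc h hns
  obtain ⟨z, hz⟩ : ∃ z, z = zC Q ϖ (TT Q P x) a := ⟨_, rfl⟩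
  have hD0 := D_ne' h hm
  have hDZ0 : (m : ℤ) ≠ 0 := by exact_mod_cast hD0
  obtain ⟨E, hE⟩ : ∃ E : ℤ, E = -2 * (m : ℤ) := ⟨_, rfl⟩
  have hDZ : E ≠ 0 := by rw [hE]; exact mul_ne_zero (by norm_num) hDZ0
  have hDQ : (E : ℚ) ≠ 0 := by exact_mod_cast hDZ
  have hloc : ∀ (p : ℕ) [Fact p.Prime], Pool.Agent.L0h4.T3.LZ ℚ_[p] E z := fun p _ => by
    rw [hz, hE]
    exact loc_evC h hm hK p
  obtain ⟨π₁, p1, a1, b1⟩ := zC_prime h hK
  rw [← hz] at a1 b1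
  have hz0 : z ≠ 0 := by
    intro h0
    rw [h0] at b1
    exact b1 (dvd_zero _)
  have hlaD : ¬ la ∣ (E : eis) := by
    intro h1
    have h2 := D3 h hm
    have h3 := (la_dvd_iff E 0).1 (by
      have e : (E : eis) + ((0 : ℤ) : eis) * omr = (E : eis) := by push_cast; ring
      rw [e]
      exact h1)
    rw [hE] at h3
    omega
  have hlaz : ¬ la ∣ z := by
    rw [hz]
    exact la_nzC h (TT_sub x) a
  have hE2 : 0 < E ^ 2 := by positivity
  have hb : 3 * E ^ 2 ≠ 0 := mul_ne_zero (by norm_num) (pow_ne_zero 2 hDZ)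
  have hab : (-3 * E) ^ 2 - 4 * (3 * E ^ 2) < 0 := by
    nlinarith
  have nb : ¬ IsSquare ((3 * E ^ 2 : ℤ) : ℚ) := by
    rintro ⟨s, hs⟩
    have h5 : IsSquare (3 : ℚ) := by
      refine ⟨s / E, ?_⟩
      push_cast at hs
      field_simp
      linear_combination hs
    have h6 : IsSquare (3 : ℤ) := by
      have h7 : IsSquare ((3 : ℤ) : ℚ) := by exact_mod_cast h5
      exact Rat.isSquare_intCast_iff.1 h7
    obtain ⟨t, ht⟩ := h6
    have h8 : t < 2 := by nlinarith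
    have h9 : -2 < t := by nlinarith
    interval_cases t <;> omega
  have nab : ¬ IsSquare (((-3 * E : ℤ) : ℚ) ^ 2 - 4 * ((3 * E ^ 2 : ℤ) : ℚ)) := by
    rintro ⟨s, hs⟩
    push_cast at hs
    have h5 : 0 < (E : ℚ) ^ 2 := by positivity
    nlinarith [mul_self_nonneg s]
  have hV : VR (WF ℚ (-3 * E) (3 * E ^ 2)) (WC ℚ m) 1 (-2 * (m : ℚ)) 0 0 := by
    rw [hE]
    exact vr_WC ℚ m
  have hVD := WC_ne ℚ hD0
  have hfW : Finite (WF ℚ (-3 * E) (3 * E ^ 2)).toAffine.Point :=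
    Finite.of_equiv _ (hV.equiv hVD).toEquiv
  obtain ⟨y, hy0, hy2⟩ := Pool.Agent.L0h23.SZ.Ad.exists_shaZ (K := ℚ) hb hab nb nab hfW
    (u := (cx z : ℚ) + (cy z : ℚ)) (v := -((cy z : ℚ) / (E : ℚ)))
    (by
      have h5 : (nz z : ℚ) ≠ 0 := by
        have := nz_pos hz0
        exact_mod_cast this.ne'
      intro h6
      apply h5
      rw [← h6]
      unfold nz
      push_cast
      field_simp
      ring)
    (by
      intro w
      have : Fact (below w : ℕ).Prime := ⟨(below w).2⟩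
      have h5 := (hloc (below w : ℕ)).map (Pool.Agent.Y698.SG.Th.pth (v := w) (p := (below w : ℕ)) (nm_eq w).2.2)
      simp only [map_add, map_mul, map_div₀, map_intCast, map_ofNat, map_neg] at h5 ⊢
      exact h5)
    (n1_of hDZ p1 a1 b1) (n2_of hDZ hlaD hlaz)
  have hI := (Pool.Agent.Y655.XT.isoVR hV hVD).sha
  refine ⟨hI.symm y, fun h5 => hy0 ?_, ?_⟩
  · have := congrArg hI h5
    rwa [AddEquiv.apply_symm_apply, map_zero] at this
  · rw [← map_add, hy2, map_zero]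

/-- **the converse** -/
theorem convC (h : Dt Q P ϖ) (hm : m = ∏ q ∈ Q ∪ P, q) (hns : ¬ Cr8 Q P ϖ m)
    (hf : Finite (WC ℚ m).toAffine.Point) : ∃ y : Sha (WC ℚ m), y ≠ 0 ∧ y + y = 0 :=
  conv_sysC h hm (fun h1 => hns ((cr8_sys h hm (odd_m h hm)).2 h1)) hf

end

/-- **C8: the converse** -/
theorem t_CNVC : Pool.Agent.L0h86.F5.S_CNVC := fun _ _ _ _ h hm hns hf => convC h hm hns hf

end Pool.Agent.L0h61.T5
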