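import Pool.Agent.L0h61.T5.LinC
import Pool.Agent.L0h4.T4.Bw

/-!
# The recursion for the bordered determinant, and the induction
-/

set_option autoImplicit false
set_option linter.unusedSectionVars false

open Filter
open scoped Topology PeriodPair

namespace Pool.Agent.L0h61.T5

open H667R3 Pool.Agent.W192.HK Pool.Agent.TH936.CM
open Pool.Agent.TH936.PU hiding pf
open Pool.Agent.Y696 Pool.Agent.Y715.T.Lat
open Pool.Agent.L0h86.F3 hiding Bv_eq
open Pool.Agent.L0h4.T4
open Pool.Agent.Y698.SG (lg lg_one lg_neg_one lg_mul sgn_mul sgn_prod ix)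
open Pool.Agent.L0h86.F5 (g8 cB rB e2)

variable {ι : Type} [DecidableEq ι]

lemma insertNone_eq (S : Finset ι) :
    Finset.insertNone S = insert none (S.map Function.Embedding.some) := by
  ext o
  cases o <;> simp

/-- the subsets of `insertNone S` -/
lemma sum_pow {K : Type} [AddCommMonoid K] (S : Finset ι) (f : Finset (Option ι) → K) :
    ∑ A ∈ (Finset.insertNone S).powerset, f A =
      ∑ T ∈ S.powerset, f (T.map Function.Embedding.some) +
      ∑ T ∈ S.powerset, f (Finset.insertNone T) := by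
  have h : ∀ g : Finset (Option ι) → K, ∑ A ∈ (S.map Function.Embedding.some).powerset, g A =
      ∑ T ∈ S.powerset, g (T.map Function.Embedding.some) := by
    intro g
    symm
    refine Finset.sum_nbij' (fun T => T.map Function.Embedding.some) (fun A => Finset.eraseNone A)
      ?_ ?_ ?_ ?_ ?_
    · intro T hT
      rw [Finset.mem_powerset] at hT ⊢
      exact Finset.map_subset_map.2 hT
    · intro A hA
      rw [Finset.mem_powerset] at hA ⊢
      intro i hi
      rw [Finset.mem_eraseNone] at hi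
      have h1 := hA hi
      rw [Finset.mem_map] at h1
      obtain ⟨j, hj, h2⟩ := h1
      have h3 : j = i := Option.some_injective _ h2
      exact h3 ▸ hj
    · intro T _
      ext i
      simp
    · intro A hA
      rw [Finset.mem_powerset] at hA
      ext o
      cases o with
      | none =>
        simp only [Finset.mem_map, Function.Embedding.some_apply, reduceCtorEq, and_false,
          exists_false, false_iff]
        intro h1
        have h2 := hA h1
        simp at h2
      | some i => simp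
    · intro T _
      rfl
  rw [insertNone_eq, Finset.sum_powerset_insert (by simp), h, h]
  congr 1
  refine Finset.sum_congr rfl fun T _ => ?_
  rw [insertNone_eq]

/-- the determinant over the image -/
lemma gk_map {k : Type} [CommRing k] (T : Finset ι) (c : Option ι → k) (r : Option ι → Option ι → k) :
    gk c r (T.map Function.Embedding.some) =
      gk (fun i => c (some i)) (fun i j => r (some i) (some j)) T := by
  unfold gk
  set e : T ≃ (T.map Function.Embedding.some : Finset (Option ι)) :=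
    Equiv.ofBijective (fun i => ⟨some i, Finset.mem_map_of_mem _ i.2⟩) (by
      constructor
      · intro i j h
        exact Subtype.ext (Option.some_injective _ (congrArg Subtype.val h))
      · rintro ⟨o, ho⟩
        rw [Finset.mem_map] at ho
        obtain ⟨i, hi, rfl⟩ := ho
        exact ⟨⟨i, hi⟩, rfl⟩) with he
  rw [← Matrix.det_submatrix_equiv_self e]
  congr 1
  refine Matrix.ext fun i j => ?_
  rw [Matrix.submatrix_apply, Matrix.of_apply, Matrix.of_apply]
  by_cases hij : i = j
  · subst hij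
    rw [if_pos rfl, if_pos rfl]
    show c (some i) + ∑ k ∈ (T.map Function.Embedding.some).erase (some (i : ι)), r (some i) k = _
    have h1 : (T.map Function.Embedding.some).erase (some (i : ι)) =
        (T.erase (i : ι)).map Function.Embedding.some := by
      ext o
      cases o <;> simp [Finset.mem_erase]
    rw [h1, Finset.sum_map]
    rfl
  · rw [if_neg hij, if_neg fun h => hij (e.injective h)]
    rfl

/-- the determinant under a homomorphism -/
lemma gk_hom {k l : Type} [CommRing k] [CommRing l] (φ : k →+* l) (T : Finset ι) (c : ι → k)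
    (r : ι → ι → k) : φ (gk c r T) = gk (fun i => φ (c i)) (fun i j => φ (r i j)) T := by
  unfold gk
  rw [RingHom.map_det]
  congr 1
  refine Matrix.ext fun i j => ?_
  rw [RingHom.mapMatrix_apply, Matrix.map_apply, Matrix.of_apply, Matrix.of_apply]
  split_ifs
  · rw [map_add, map_sum]
  · rfl

lemma cj_of (a : ZMod 2) : F4.cj (F4.of a) = F4.of a := by
  revert a
  decide

lemma of_sq (a : ZMod 2) : F4.of a * F4.of a = F4.of a := by
  revert a
  decide

/-- the determinant without the border -/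
lemma gk_bt (π : ι → eis) (t : ZMod 2) (T : Finset ι) :
    gk (cB π t) (rB π t) (T.map Function.Embedding.some) = F4.cj (g4 π T) := by
  rw [gk_map]
  unfold g4
  rw [gk_hom]
  congr 1
  · funext i
    rw [F4.cj_cj]
    rfl
  · funext i j
    rw [cj_of]
    rfl

/-- **the recursion** -/
theorem rec_g8 (π : ι → eis) (t : ZMod 2) (S : Finset ι) :
    ∑ T ∈ S.powerset, g8 π t T * ∏ i ∈ S \ T, (F4.cj (bt (π i)) +
      F4.of (e2 π i + t * F4.tr (bt (π i))) + ∑ j ∈ T, F4.of (mm π i j)) =
    F4.of t * ∏ i ∈ S, (bt (π i) + F4.cj (bt (π i))) +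
      (∑ A ∈ S.powerset, F4.of (∑ j ∈ A, e2 π j) *
        (∏ i ∈ S \ A, (bt (π i) + ∑ j ∈ A, F4.of (mm π i j))) * g4 π A) ^ 2 := by
  have h := rec_gen (fun o : Option ι => match o with
    | some i => F4.cj (bt (π i))
    | none => (0 : F4)) (cB π t) (rB π t) (Finset.insertNone S)
  rw [sum_pow, Finset.prod_insertNone] at h
  have h1 : ∀ T ∈ S.powerset, gk (cB π t) (rB π t) (Finset.insertNone T) *
      ∏ o ∈ Finset.insertNone S \ Finset.insertNone T, ((match o with
        | some i => F4.cj (bt (π i))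
        | none => (0 : F4)) + ∑ j ∈ Finset.insertNone T, rB π t o j) =
      g8 π t T * ∏ i ∈ S \ T, (F4.cj (bt (π i)) +
      F4.of (e2 π i + t * F4.tr (bt (π i))) + ∑ j ∈ T, F4.of (mm π i j)) := by
    intro T _
    have e1 : Finset.insertNone S \ Finset.insertNone T = (S \ T).map Function.Embedding.some := by
      ext o
      cases o <;> simp
    rw [e1, Finset.prod_map]
    unfold g8
    congr 1
    refine Finset.prod_congr rfl fun i _ => ?_
    rw [Finset.sum_insertNone]
    show F4.cj (bt (π i)) + (F4.of (e2 π i + t * F4.tr (bt (π i))) + ∑ j ∈ T, F4.of (mm π i j)) = _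
    ring
  have h2 : ∀ T ∈ S.powerset, gk (cB π t) (rB π t) (T.map Function.Embedding.some) *
      ∏ o ∈ Finset.insertNone S \ T.map Function.Embedding.some, ((match o with
        | some i => F4.cj (bt (π i))
        | none => (0 : F4)) + ∑ j ∈ T.map Function.Embedding.some, rB π t o j) =
      (F4.of (∑ j ∈ T, e2 π j) *
        (∏ i ∈ S \ T, (bt (π i) + ∑ j ∈ T, F4.of (mm π i j))) * g4 π T) ^ 2 := by
    intro T _
    have e1 : Finset.insertNone S \ T.map Function.Embedding.some = Finset.insertNone (S \ T) := by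
      ext o
      cases o <;> simp
    rw [e1, Finset.prod_insertNone, gk_bt, F4.cj_eq]
    have e2 : ∀ i, F4.cj (bt (π i)) + ∑ j ∈ T.map Function.Embedding.some, rB π t (some i) j =
        (bt (π i) + ∑ j ∈ T, F4.of (mm π i j)) * (bt (π i) + ∑ j ∈ T, F4.of (mm π i j)) := by
      intro i
      rw [← F4.cj_eq, map_add, map_sum, Finset.sum_map]
      congr 1
      refine Finset.sum_congr rfl fun j _ => ?_
      rw [cj_of]
      rfl
    have e3 : (0 : F4) + ∑ j ∈ T.map Function.Embedding.some, rB π t none j =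
        F4.of (∑ j ∈ T, Pool.Agent.L0h86.F5.e2 π j) := by
      rw [zero_add, Finset.sum_map, map_sum]
      rfl
    show (g4 π T * g4 π T) * (((0 : F4) + ∑ j ∈ T.map Function.Embedding.some, rB π t none j) *
      ∏ i ∈ S \ T, (F4.cj (bt (π i)) + ∑ j ∈ T.map Function.Embedding.some, rB π t (some i) j)) = _
    rw [e3, Finset.prod_congr rfl fun i _ => e2 i, Finset.prod_mul_distrib]
    linear_combination (-(g4 π T * g4 π T * ((∏ i ∈ S \ T, (bt (π i) + ∑ j ∈ T, F4.of (mm π i j))) *
      ∏ i ∈ S \ T, (bt (π i) + ∑ j ∈ T, F4.of (mm π i j))))) *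
      of_sq (∑ j ∈ T, Pool.Agent.L0h86.F5.e2 π j)
  rw [Finset.sum_congr rfl h1, Finset.sum_congr rfl h2] at h
  rw [← sum_pow_char 2] at h
  set X : F4 := ∑ A ∈ S.powerset, F4.of (∑ j ∈ A, e2 π j) *
        (∏ i ∈ S \ A, (bt (π i) + ∑ j ∈ A, F4.of (mm π i j))) * g4 π A with hX
  have h4 : X ^ 2 + X ^ 2 = 0 := add_self_two _
  have h5 : X ^ 2 + ∑ T ∈ S.powerset, g8 π t T * ∏ i ∈ S \ T, (F4.cj (bt (π i)) +
      F4.of (e2 π i + t * F4.tr (bt (π i))) + ∑ j ∈ T, F4.of (mm π i j)) =
      (0 + F4.of t) * ∏ i ∈ S, (F4.cj (bt (π i)) + bt (π i)) := h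
  have h6 : ∏ i ∈ S, (F4.cj (bt (π i)) + bt (π i)) = ∏ i ∈ S, (bt (π i) + F4.cj (bt (π i))) :=
    Finset.prod_congr rfl fun i _ => add_comm _ _
  rw [h6] at h5
  linear_combination h5 - h4

variable {L : PeriodPair} {Ω : ℂ} {Γ : Type*} [LinearOrderedCommGroupWithZero Γ]
  {v : Valuation ℂ Γ} {F : ℂ → ℂ} {ε : eis → ℂ}

/-- **the induction, with any values** -/
theorem indG (hL : IsLat L eis Ω) (hF : FN L Ω F ε)
    {c0 : ℂ} (hc0 : c0 ≠ 0) {S0 : Finset ι} {π : ι → eis} (hS0 : FX S0 π) (b : ι → F4)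
    (G V : Finset ι → F4)
    (hG : ∀ S ⊆ S0, ∑ A ∈ S.powerset, G A * ∏ i ∈ S \ A, (b i + ∑ j ∈ A, F4.of (mm π i j)) = V S)
    (he : ∀ i ∈ S0, ∀ κ : ℂ, (κ = 1 ∨ κ = -1) →
      R4 v (((π i : ℂ) * ε (π i) - κ) / 2) (b i + F4.of (lg κ)))
    (hv : ∀ S ⊆ S0, R4 v (Bw F Ω (∏ i ∈ S, π i) (fun m => ∏ i ∈ S, hc (π i) m) / c0) (V S))
    (S : Finset ι) (hSS : S ⊆ S0) :
    R4 v (Bw F Ω (∏ i ∈ S, π i) (fun m => ∏ i ∈ S, sy (π i) m) / (2 ^ S.card * c0)) (G S) := by
  set a : Finset ι → ℂ := fun A => Bw F Ω (∏ i ∈ A, π i) (fun m => ∏ i ∈ A, sy (π i) m) with had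
  have key : ∀ S : Finset ι, S ⊆ S0 → R4 v (a S / (2 ^ S.card * c0)) (G S) := by
    intro S
    induction S using Finset.strongInduction with
    | H S ih =>
      intro hSS
      have hS := hS0.mono hSS
      have h2 := Bw_subsets hL hF S hS
      rw [← Finset.add_sum_erase _ _ (Finset.mem_powerset_self S), Finset.sdiff_self,
        Finset.prod_empty, one_mul] at h2
      have h3 := hv S hSS
      set Y := Bw F Ω (∏ i ∈ S, π i) (fun m => ∏ i ∈ S, hc (π i) m) with hY
      have h20 : (2 : ℂ) ^ S.card ≠ 0 := pow_ne_zero _ two_ne_zero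
      set t : Finset ι → ℂ := fun A =>
        (∏ i ∈ S \ A, (((π i : ℂ) * ε (π i) - ∏ j ∈ A, sy (π j) (π i)) / 2)) *
          (a A / (2 ^ A.card * c0)) with ht
      have ht1 : ∀ A ∈ S.powerset.erase S, (∏ i ∈ S \ A, ((π i : ℂ) * ε (π i) -
          ∏ j ∈ A, sy (π j) (π i))) *
          Bw F Ω (∏ i ∈ A, π i) (fun m => ∏ i ∈ A, sy (π i) m) =
          (2 ^ S.card * c0) * t A := by
        intro A hA
        rw [Finset.mem_erase, Finset.mem_powerset] at hA
        have hcs : S.card = (S \ A).card + A.card := (Finset.card_sdiff_add_card_eq_card hA.2).symm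
        rw [ht]
        beta_reduce
        rw [Finset.prod_div_distrib, Finset.prod_const, hcs, pow_add]
        simp only [had]
        field_simp
      rw [Finset.sum_congr rfl ht1, ← Finset.mul_sum] at h2
      have h4 : a S / (2 ^ S.card * c0) =
          Y / c0 + -∑ A ∈ S.powerset.erase S, t A := by
        have : a S = 2 ^ S.card * Y - (2 ^ S.card * c0) * ∑ A ∈ S.powerset.erase S, t A := by
          linear_combination h2
        rw [this]
        field_simp
        ring
      have h5 : G S = V S +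
          ∑ A ∈ S.powerset.erase S,
          (∏ i ∈ S \ A, (b i + ∑ j ∈ A, F4.of (mm π i j))) * G A := by
        have h6 := hG S hSS
        rw [← Finset.add_sum_erase _ _ (Finset.mem_powerset_self S), Finset.sdiff_self,
          Finset.prod_empty, mul_one] at h6
        rw [← h6, Finset.sum_congr rfl (fun A _ => mul_comm (G A) _)]
        rw [add_assoc, add_self_two, add_zero]
      rw [h4, h5]
      refine h3.add (R4.neg (R4.sum ?_))
      intro A hA
      rw [Finset.mem_erase, Finset.mem_powerset] at hA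
      have hss : A ⊂ S := hA.2.ssubset_of_ne hA.1
      refine R4.mul (R4.prod fun i hi => ?_) (ih A hss (hA.2.trans hSS))
      rw [Finset.mem_sdiff] at hi
      have h7 := sgn_prod (s := A) (f := fun j => sy (π j) (π i)) fun j hj => sy_sgn
        (hS.ne i hi.1 j (hA.2 hj) fun h => hi.2 (h ▸ hj))
      have h8 : ∑ j ∈ A, F4.of (mm π i j) = F4.of (lg (∏ j ∈ A, sy (π j) (π i))) := by
        rw [h7.2, map_sum]
        rfl
      rw [h8]
      exact he i (hSS hi.1) _ h7.1
  exact key S hSS

/-- **the induction for the curves `y² = x³ - 8 m³`** -/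
theorem ind8 (hL : IsLat L eis Ω) (hF : FN L Ω F ε)
    {c0 : ℂ} (hc0 : c0 ≠ 0) {S0 : Finset ι} {π : ι → eis} (hS0 : FX S0 π) (t : ZMod 2)
    (he : ∀ i ∈ S0, ∀ κ : ℂ, (κ = 1 ∨ κ = -1) →
      R4 v (((π i : ℂ) * ε (π i) - κ) / 2) (F4.cj (bt (π i)) +
        F4.of (e2 π i + t * F4.tr (bt (π i))) + F4.of (lg κ)))
    (hv : ∀ S ⊆ S0, R4 v (Bw F Ω (∏ i ∈ S, π i) (fun m => ∏ i ∈ S, hc (π i) m) / c0)
      (F4.of t * ∏ i ∈ S, (bt (π i) + F4.cj (bt (π i))) +
      (∑ A ∈ S.powerset, F4.of (∑ j ∈ A, e2 π j) *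
        (∏ i ∈ S \ A, (bt (π i) + ∑ j ∈ A, F4.of (mm π i j))) * g4 π A) ^ 2))
    (S : Finset ι) (hSS : S ⊆ S0) :
    R4 v (Bw F Ω (∏ i ∈ S, π i) (fun m => ∏ i ∈ S, sy (π i) m) / (2 ^ S.card * c0)) (g8 π t S) :=
  indG hL hF hc0 hS0 _ (g8 π t) _ (fun S _ => rec_g8 π t S) he hv S hSS

end Pool.Agent.L0h61.T5
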