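import Pool.Agent.L0h61.T3.Lap

/-!
# The bordered determinants
-/

set_option autoImplicit false
set_option linter.unusedSectionVars false

namespace Pool.Agent.L0h61.T5

open Matrix
open Pool.Agent.L0h61.T3

variable {κ : Type} [Fintype κ] [DecidableEq κ]
variable {m : κ → κ → ZMod 2} {n t : κ → ZMod 2} {c : κ → κ}

/-- a column -/
abbrev col {A : Type} (v : κ → A) : Matrix κ Unit A := replicateCol Unit v
/-- a row -/
abbrev row {A : Type} (v : κ → A) : Matrix Unit κ A := replicateRow Unit v
/-- a scalar -/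
abbrev sc {A : Type} (g : A) : Matrix Unit Unit A := Matrix.of fun _ _ => g

/-- the matrix of the system: rows `j`, columns `i` -/
def HB (m : κ → κ → ZMod 2) (n t : κ → ZMod 2) (c : κ → κ) (e f : κ → ZMod 2) (g : ZMod 2) :
    Matrix (κ ⊕ Unit) (κ ⊕ Unit) (ZMod 2) :=
  fromBlocks (Hm m n t c (∑ i, t i) + diagonal f) (col e) (row (t + n)) (sc g)

/-- the matrix of the criterion -/
def GB {A : Type} [CommRing A] (m : κ → κ → ZMod 2) (n t : κ → ZMod 2) (φ : ZMod 2 →+* A) (o : A)
    (e f : κ → ZMod 2) (g : ZMod 2) : Matrix (κ ⊕ Unit) (κ ⊕ Unit) A :=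
  fromBlocks (Gm m n t φ o + diagonal (φ ∘ f)) (col (φ ∘ f)) (row (φ ∘ e)) (sc (φ g))

/-- the common matrix -/
def QB (m : κ → κ → ZMod 2) (n t : κ → ZMod 2) (c : κ → κ) (f : κ → ZMod 2) (g : ZMod 2) :
    Matrix (κ ⊕ Unit) (κ ⊕ Unit) (ZMod 2) :=
  fromBlocks (Xm m n t c + diagonal f) (col f) (row f) (sc g)

lemma Hm_fac (h : Sys m n t c) :
    Hm m n t c (∑ i, t i) = (1 + vecMulVec n (fun _ => (1 : ZMod 2))) * (Xm m n t c)ᵀ := by
  rw [Hm_eq h, Xm_T h, Matrix.add_mul, Matrix.one_mul, Matrix.vecMulVec_mul,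
    Matrix.vecMul_add, Matrix.vecMul_add, one_vecMul_Lp, one_vecMul_NC h]
  have h1 : (fun _ => (1 : ZMod 2)) ᵥ* vecMulVec n n = 0 := by
    ext i
    unfold Matrix.vecMul dotProduct
    simp only [one_mul, Matrix.vecMulVec_apply]
    rw [← Finset.sum_mul, h.sumn, zero_mul]
    rfl
  rw [h1, add_zero]
  have h2 : vecMulVec n (t + n) = vecMulVec n t + vecMulVec n n := by
    ext i j
    simp only [Matrix.vecMulVec_apply, Matrix.add_apply, Pi.add_apply, mul_add]
  rw [h2]
  ext j i
  simp only [Matrix.add_apply]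
  linear_combination -z2 (vecMulVec n n j i)

/-- **the determinant of the system** -/
theorem det_HB (h : Sys m n t c) {e f : κ → ZMod 2} {g : ZMod 2} (he : ∑ i, e i = 0)
    (hf : ∀ i, f i = e i + g * n i) : (HB m n t c e f g).det = (QB m n t c f g).det := by
  set Q : Matrix (κ ⊕ Unit) (κ ⊕ Unit) (ZMod 2) :=
    fromBlocks ((Xm m n t c)ᵀ + diagonal f) (col f) (row f) (sc g) with hQ
  have hQd : Q.det = (QB m n t c f g).det := by
    rw [← Matrix.det_transpose]
    congr 1
    rw [hQ, Matrix.fromBlocks_transpose, Matrix.transpose_add, Matrix.transpose_transpose,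
      Matrix.diagonal_transpose]
    rfl
  have e1 : fromBlocks (1 : Matrix κ κ (ZMod 2)) (col n) 0 1 * Q =
      fromBlocks ((Xm m n t c)ᵀ + diagonal f + vecMulVec n f) (col e) (row f) (sc g) := by
    rw [hQ, Matrix.fromBlocks_multiply]
    simp only [Matrix.one_mul, Matrix.zero_mul, zero_add]
    congr 1
    · congr 1
      ext i j
      simp [Matrix.mul_apply, Matrix.vecMulVec_apply]
    · ext i j
      simp only [Matrix.add_apply, Matrix.mul_apply, Finset.univ_unique, Finset.sum_singleton,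
        replicateCol_apply, Matrix.of_apply]
      rw [hf]
      linear_combination z2 (n i * g)
  have e2 : fromBlocks (1 : Matrix κ κ (ZMod 2)) 0 (row fun _ => 1) 1 *
      fromBlocks ((Xm m n t c)ᵀ + diagonal f + vecMulVec n f) (col e) (row f) (sc g) =
      fromBlocks ((Xm m n t c)ᵀ + diagonal f + vecMulVec n f) (col e) (row (t + n)) (sc g) := by
    rw [Matrix.fromBlocks_multiply]
    simp only [Matrix.one_mul, Matrix.zero_mul, add_zero]
    congr 1
    · have h1 : (fun _ => (1 : ZMod 2)) ᵥ* (Xm m n t c)ᵀ = t + n := by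
        rw [Xm_T h, Matrix.vecMul_add, Matrix.vecMul_add, one_vecMul_Lp, one_vecMul_NC h]
        have h2 : (fun _ => (1 : ZMod 2)) ᵥ* vecMulVec n n = 0 := by
          ext i
          unfold Matrix.vecMul dotProduct
          simp only [one_mul, Matrix.vecMulVec_apply]
          rw [← Finset.sum_mul, h.sumn, zero_mul]
          rfl
        rw [h2, add_zero]
      ext u j
      have h3 := congrFun h1 j
      unfold Matrix.vecMul dotProduct at h3
      simp only [one_mul] at h3
      simp only [Matrix.add_apply, Matrix.mul_apply, replicateRow_apply, one_mul,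
        Finset.sum_add_distrib, Matrix.vecMulVec_apply, Pi.add_apply]
      rw [h3, ← Finset.sum_mul, h.sumn, zero_mul, add_zero]
      have h4 : ∑ x, diagonal f x j = f j := by
        rw [Finset.sum_eq_single j]
        · rw [Matrix.diagonal_apply_eq]
        · intro b _ hb
          exact Matrix.diagonal_apply_ne _ hb
        · intro h'
          exact absurd (Finset.mem_univ _) h'
      rw [h4, Pi.add_apply]
      linear_combination z2 (f j)
    · ext u j
      simp only [Matrix.add_apply, Matrix.mul_apply, replicateRow_apply, replicateCol_apply, one_mul]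
      rw [he, zero_add]
  have e3 : fromBlocks (1 + vecMulVec n (fun _ => (1 : ZMod 2))) 0 0 (1 : Matrix Unit Unit (ZMod 2)) *
      fromBlocks ((Xm m n t c)ᵀ + diagonal f + vecMulVec n f) (col e) (row (t + n)) (sc g) =
      HB m n t c e f g := by
    unfold HB
    rw [Matrix.fromBlocks_multiply]
    simp only [Matrix.one_mul, Matrix.zero_mul, add_zero, zero_add]
    congr 1
    · rw [Hm_fac h, add_assoc (Xm m n t c)ᵀ, Matrix.mul_add]
      congr 1
      rw [Matrix.add_mul, Matrix.one_mul, Matrix.mul_add, Matrix.vecMulVec_mul, Matrix.vecMulVec_mul]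
      have h1 : (fun _ => (1 : ZMod 2)) ᵥ* vecMulVec n f = 0 := by
        ext i
        unfold Matrix.vecMul dotProduct
        simp only [one_mul, Matrix.vecMulVec_apply]
        rw [← Finset.sum_mul, h.sumn, zero_mul]
        rfl
      have h2 : (fun _ => (1 : ZMod 2)) ᵥ* diagonal f = f := by
        ext i
        rw [Matrix.vecMul_diagonal, one_mul]
      rw [h1, h2]
      ext i j
      simp only [Matrix.add_apply, Matrix.vecMulVec_apply, Pi.zero_apply, mul_zero]
      linear_combination z2 (n i * f j)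
    · rw [Matrix.add_mul, Matrix.one_mul]
      ext i j
      simp only [Matrix.add_apply, Matrix.mul_apply, Matrix.vecMulVec_apply, mul_one,
        replicateCol_apply]
      rw [← Finset.mul_sum, he, mul_zero, add_zero]
  have d1 : (fromBlocks (1 : Matrix κ κ (ZMod 2)) (col n) 0 (1 : Matrix Unit Unit (ZMod 2))).det = 1 := by
    rw [Matrix.det_fromBlocks_zero₂₁, Matrix.det_one, Matrix.det_one, mul_one]
  have d2 : (fromBlocks (1 : Matrix κ κ (ZMod 2)) 0 (row fun _ => 1) (1 : Matrix Unit Unit (ZMod 2))).det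
      = 1 := by
    rw [Matrix.det_fromBlocks_zero₁₂, Matrix.det_one, Matrix.det_one, mul_one]
  have d3 : (fromBlocks (1 + vecMulVec n (fun _ => (1 : ZMod 2))) 0 0
      (1 : Matrix Unit Unit (ZMod 2))).det = 1 := by
    rw [Matrix.det_fromBlocks_zero₁₂, Matrix.det_one, mul_one, det_one_add_vec]
    unfold dotProduct
    simp only [one_mul]
    exact h.sumn
  rw [← e3, Matrix.det_mul, d3, one_mul, ← e2, Matrix.det_mul, d2, one_mul, ← e1, Matrix.det_mul, d1,
    one_mul, hQd]

section
variable {A : Type} [CommRing A] (φ : ZMod 2 →+* A) {o : A}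

/-- the unitary matrix -/
def UM (c : κ → κ) (φ : ZMod 2 →+* A) (o : A) : Matrix κ κ A := o ^ 2 • 1 + o • (Cm c).map φ

lemma UM_sq (h : Sys m n t c) (ho : o ^ 2 + o + 1 = 0) : UM c φ o * UM c φ o = 1 := by
  have h2A : (2 : A) = 0 := two_A φ
  unfold UM
  set C : Matrix κ κ A := (Cm c).map φ with hC
  have hCC : C * C = 1 := by
    rw [hC, ← Matrix.map_mul, Cm_sq h.cinv, Matrix.map_one φ (map_zero φ) (map_one φ)]
  simp only [Matrix.add_mul, Matrix.mul_add, Matrix.smul_mul, Matrix.mul_smul, Matrix.one_mul,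
    Matrix.mul_one, smul_add, smul_smul, hCC]
  ext i j
  simp only [Matrix.add_apply, Matrix.smul_apply, smul_eq_mul]
  linear_combination ((o ^ 2 - o) * (1 : Matrix κ κ A) i j) * ho + (1 : Matrix κ κ A) i j * ho +
    (o ^ 3 * C i j - (1 : Matrix κ κ A) i j) * h2A

/-- the factorisation -/
lemma Gm_fac (h : Sys m n t c) (ho : o ^ 2 + o + 1 = 0) :
    Gm m n t φ o = UM c φ o * (Xm m n t c).map φ * UM c φ o *
      (1 + vecMulVec (fun _ => (1 : A)) (fun i => φ (n i))) := by
  have h2A : (2 : A) = 0 := two_A φ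
  set L : Matrix κ κ A := (Lp m n t).map φ with hL
  set C : Matrix κ κ A := (Cm c).map φ with hC
  have hCC : C * C = 1 := by
    rw [hC, ← Matrix.map_mul, Cm_sq h.cinv, Matrix.map_one φ (map_zero φ) (map_one φ)]
  have hCLC : C * L * C = Lᵀ := by
    rw [hC, hL, ← Matrix.map_mul, ← Matrix.map_mul, CLC h, Matrix.transpose_map]
  have hX : (Xm m n t c).map φ = L + C * L + L * C := by
    unfold Xm
    rw [Matrix.map_add φ (map_add φ), Matrix.map_add φ (map_add φ), Matrix.map_mul, Matrix.map_mul]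
  have hLT : L + Lᵀ = (vecMulVec n n).map φ + (Matrix.diagonal n).map φ := by
    rw [hL, ← Matrix.transpose_map, ← Matrix.map_add φ (map_add φ), Lp_symm h,
      Matrix.map_add φ (map_add φ)]
  -- the first factorisation
  have e1 : Gm m n t φ o = (L + o ^ 2 • (L + Lᵀ)) *
      (1 + vecMulVec (fun _ => (1 : A)) (fun i => φ (n i))) := by
    have hL1 : L *ᵥ (fun _ => (1 : A)) = fun i => φ (t i) := by
      have h1 := congrArg (fun v : κ → ZMod 2 => fun i => φ (v i)) (one_vecMul_Lp (m := m) (n := n) (t := t))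
      simp only [Matrix.vecMul_transpose] at h1
      rw [← h1]
      ext i
      rw [hL]
      unfold Matrix.mulVec dotProduct
      simp [map_sum]
    have hLT1 : (L + Lᵀ) *ᵥ (fun _ => (1 : A)) = fun i => φ (n i) := by
      rw [hLT]
      ext i
      unfold Matrix.mulVec dotProduct
      simp only [Matrix.add_apply, Matrix.map_apply, Matrix.vecMulVec_apply, mul_one,
        Finset.sum_add_distrib, ← map_sum, ← Finset.mul_sum]
      rw [h.sumn, mul_zero, map_zero, zero_add]
      congr 1
      rw [Finset.sum_eq_single i]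
      · rw [Matrix.diagonal_apply_eq]
      · intro b _ hb
        exact Matrix.diagonal_apply_ne _ (Ne.symm hb)
      · intro h'
        exact absurd (Finset.mem_univ _) h'
    rw [Matrix.mul_add, Matrix.mul_one, Matrix.mul_vecMulVec, Matrix.add_mulVec,
      Matrix.smul_mulVec, hL1, hLT1, Gm_eq φ h, ← hL, hLT]
    ext i j
    simp only [Matrix.add_apply, Matrix.smul_apply, Matrix.map_apply, Matrix.vecMulVec_apply,
      smul_eq_mul, Pi.add_apply, Pi.smul_apply, map_mul]
    linear_combination (-(o ^ 2 * φ (n i) * φ (n j))) * h2A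
  have e2 : L + o ^ 2 • (L + Lᵀ) = (o ^ 2 • 1 + o • C) * (Xm m n t c).map φ *
      (o ^ 2 • 1 + o • C) := by
    rw [hX]
    have hLC : Lᵀ = C * L * C := hCLC.symm
    have a1 : C * (C * L) = L := by rw [← Matrix.mul_assoc, hCC, Matrix.one_mul]
    have a2 : L * C * C = L := by rw [Matrix.mul_assoc, hCC, Matrix.mul_one]
    have a3 : C * L * C * C = C * L := by rw [Matrix.mul_assoc (C * L), hCC, Matrix.mul_one]
    have o3 : o * o ^ 2 = 1 := by linear_combination (o - 1) * ho
    have o4 : o ^ 2 * o ^ 2 = o := by linear_combination (o ^ 2 - o) * ho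
    have o2 : o ^ 2 = o + 1 := by linear_combination ho - (o + 1) * h2A
    rw [hLC]
    simp only [Matrix.add_mul, Matrix.mul_add, Matrix.smul_mul, Matrix.mul_smul, Matrix.one_mul,
      Matrix.mul_one, smul_add, smul_smul, ← Matrix.mul_assoc, a2, a3, hCC]
    ext i j
    simp only [Matrix.add_apply, Matrix.smul_apply, smul_eq_mul]
    linear_combination (L i j * (1 - o * (o - 1))) * ho - (L i j * (o + o ^ 3)) * h2A -
      (o ^ 3 * (C * L * C) i j) * h2A - (o ^ 2 * ((C * L) i j + (L * C) i j)) * ho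
  rw [e1, e2]
  rfl

lemma UM_mulVec (h : Sys m n t c) (ho : o ^ 2 + o + 1 = 0) {f : κ → ZMod 2}
    (hf : ∀ i, f (c i) = f i) : UM c φ o *ᵥ (φ ∘ f) = φ ∘ f := by
  have h2A : (2 : A) = 0 := two_A φ
  ext i
  unfold UM
  rw [Matrix.add_mulVec, Matrix.smul_mulVec, Matrix.smul_mulVec, Matrix.one_mulVec]
  have h1 : ((Cm c).map φ *ᵥ (φ ∘ f)) i = φ (f i) := by
    show ∑ k, φ (Cm c i k) * φ (f k) = φ (f i)
    rw [Finset.sum_eq_single (c i)]
    · have h2 : Cm c i (c i) = 1 := if_pos rfl
      rw [h2, map_one, one_mul, hf]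
    · intro k _ hk
      have h2 : Cm c i k = 0 := if_neg (Ne.symm hk)
      rw [h2, map_zero, zero_mul]
    · intro h'
      exact absurd (Finset.mem_univ _) h'
  rw [Pi.add_apply, Pi.smul_apply, Pi.smul_apply, h1, Function.comp_apply, smul_eq_mul, smul_eq_mul]
  linear_combination (φ (f i)) * ho - (φ (f i)) * h2A

lemma UM_T (h : Sys m n t c) : (UM c φ o)ᵀ = UM c φ o := by
  unfold UM
  rw [Matrix.transpose_add, Matrix.transpose_smul, Matrix.transpose_smul, Matrix.transpose_one,
    ← Matrix.transpose_map, Cm_T h]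

lemma mul_key (U X F V W : Matrix κ κ A) (h1 : U * F * U = F) (h2 : U * V * U = V)
    (h3 : F * W = F + V) (h4 : V * W = V) :
    U * (X + F + V) * (U * W) = U * X * U * W + F + V + V := by
  simp only [← Matrix.mul_assoc, Matrix.mul_add, Matrix.add_mul]
  rw [h1, h2, h3, h4]
  abel

/-- **the determinant of the criterion** -/
theorem det_GB (h : Sys m n t c) (ho : o ^ 2 + o + 1 = 0) {e f : κ → ZMod 2} {g : ZMod 2}
    (he : ∑ i, e i = 0) (hec : ∀ i, e (c i) = e i) (hf : ∀ i, f i = e i + g * n i) :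
    (GB m n t φ o e f g).det = φ (QB m n t c f g).det := by
  have h2A : (2 : A) = 0 := two_A φ
  have hfc : ∀ i, f (c i) = f i := fun i => by rw [hf, hf, hec, h.cn]
  have hPd : ((QB m n t c f g).map φ).det = φ (QB m n t c f g).det := by
    rw [RingHom.map_det]
    rfl
  set U : Matrix κ κ A := UM c φ o with hU
  have hUU : U * U = 1 := UM_sq φ h ho
  have hUf : U *ᵥ (φ ∘ f) = φ ∘ f := UM_mulVec φ h ho hfc
  have hnU : (φ ∘ n) ᵥ* U = φ ∘ n := by
    rw [← Matrix.mulVec_transpose, hU, UM_T φ h]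
    exact UM_mulVec φ h ho h.cn
  have heU : (φ ∘ e) ᵥ* U = φ ∘ e := by
    rw [← Matrix.mulVec_transpose, hU, UM_T φ h]
    exact UM_mulVec φ h ho hec
  set F : Matrix κ κ A := diagonal (φ ∘ f) with hF
  have hUF : U * F = F * U := by
    ext i j
    rw [hF, Matrix.mul_diagonal, Matrix.diagonal_mul, hU]
    unfold UM
    rw [Matrix.add_apply, Matrix.smul_apply, Matrix.smul_apply, Matrix.map_apply]
    unfold Cm
    rw [Matrix.of_apply, Matrix.one_apply]
    by_cases h1 : i = j
    · subst h1
      ring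
    · rw [if_neg h1]
      by_cases h2 : c i = j
      · rw [if_pos h2]
        have h3 : f j = f i := by rw [← h2, hfc]
        rw [Function.comp_apply, Function.comp_apply, h3]
        ring
      · rw [if_neg h2, map_zero]
        simp
  -- the matrix
  have hP : (QB m n t c f g).map φ = fromBlocks ((Xm m n t c).map φ + F) (col (φ ∘ f))
      (row (φ ∘ f)) (sc (φ g)) := by
    unfold QB
    rw [Matrix.fromBlocks_map, Matrix.map_add φ (map_add φ), Matrix.diagonal_map (map_zero φ)]
    rfl
  have e1 : fromBlocks ((Xm m n t c).map φ + F) (col (φ ∘ f)) (row (φ ∘ f)) (sc (φ g)) *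
      fromBlocks 1 0 (row (φ ∘ n)) 1 =
      fromBlocks ((Xm m n t c).map φ + F + vecMulVec (φ ∘ f) (φ ∘ n)) (col (φ ∘ f)) (row (φ ∘ e))
        (sc (φ g)) := by
    rw [Matrix.fromBlocks_multiply]
    simp only [Matrix.mul_one, Matrix.mul_zero, zero_add]
    congr 1
    · congr 1
      ext i j
      simp [Matrix.mul_apply, Matrix.vecMulVec_apply]
    · ext i j
      simp only [Matrix.add_apply, Matrix.mul_apply, Finset.univ_unique, Finset.sum_singleton,
        replicateRow_apply, Matrix.of_apply, Function.comp_apply]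
      rw [hf, map_add, map_mul]
      linear_combination (φ g * φ (n j)) * h2A
  set W : Matrix κ κ A := 1 + vecMulVec (fun _ => (1 : A)) (fun i => φ (n i)) with hW
  have hone : (fun i => φ (n i)) ⬝ᵥ (fun _ => (1 : A)) = 0 := by
    unfold dotProduct
    simp only [mul_one]
    rw [← map_sum, h.sumn, map_zero]
  have hWW : W * W = 1 := by
    rw [hW, Matrix.add_mul, Matrix.one_mul, Matrix.mul_add, Matrix.mul_one,
      Matrix.vecMulVec_mul_vecMulVec, hone]
    ext i j
    simp only [Matrix.add_apply, Matrix.vecMulVec_apply, Matrix.smul_apply, smul_eq_mul, zero_mul]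
    simp only [zero_smul, Pi.zero_apply]
    linear_combination (φ (n j)) * h2A
  have hvW : ∀ v : κ → ZMod 2, ∑ i, v i = 0 → (φ ∘ v) ᵥ* W = φ ∘ v := by
    intro v hv
    rw [hW, Matrix.vecMul_add, Matrix.vecMul_one, Matrix.vecMul_vecMulVec]
    have h1 : (φ ∘ v) ⬝ᵥ (fun _ => (1 : A)) = 0 := by
      unfold dotProduct
      simp only [mul_one, Function.comp_apply]
      rw [← map_sum, hv, map_zero]
    rw [h1, zero_smul, add_zero]
  have a1 : U * F * U = F := by rw [hUF, Matrix.mul_assoc, hUU, Matrix.mul_one]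
  have a2 : U * vecMulVec (φ ∘ f) (φ ∘ n) * U = vecMulVec (φ ∘ f) (φ ∘ n) := by
    rw [Matrix.mul_vecMulVec, hUf, Matrix.vecMulVec_mul, hnU]
  have a3 : F * W = F + vecMulVec (φ ∘ f) (φ ∘ n) := by
    rw [hW, Matrix.mul_add, Matrix.mul_one]
    congr 1
    ext i j
    rw [hF, Matrix.diagonal_mul, Matrix.vecMulVec_apply, Matrix.vecMulVec_apply, one_mul]
    rfl
  have a4 : vecMulVec (φ ∘ f) (φ ∘ n) * W = vecMulVec (φ ∘ f) (φ ∘ n) := by
    rw [Matrix.vecMulVec_mul, hvW n h.sumn]
  have e2 : fromBlocks U 0 0 (1 : Matrix Unit Unit A) *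
      fromBlocks ((Xm m n t c).map φ + F + vecMulVec (φ ∘ f) (φ ∘ n)) (col (φ ∘ f)) (row (φ ∘ e))
        (sc (φ g)) * fromBlocks (U * W) 0 0 1 = GB m n t φ o e f g := by
    unfold GB
    rw [Matrix.fromBlocks_multiply, Matrix.fromBlocks_multiply]
    simp only [Matrix.mul_one, Matrix.mul_zero, Matrix.zero_mul, Matrix.one_mul, zero_add, add_zero]
    congr 1
    · rw [Gm_fac φ h ho, ← hU, ← hW, mul_key _ _ _ _ _ a1 a2 a3 a4]
      ext i j
      simp only [Matrix.add_apply]
      linear_combination (vecMulVec (φ ∘ f) (φ ∘ n) i j) * h2A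
    · ext i j
      have h1 := congrFun hUf i
      unfold Matrix.mulVec dotProduct at h1
      rw [Matrix.mul_apply]
      exact h1
    · ext i j
      have h1 : (φ ∘ e) ᵥ* (U * W) = φ ∘ e := by
        rw [← Matrix.vecMul_vecMul, heU, hvW e he]
      have h2 := congrFun h1 j
      unfold Matrix.vecMul dotProduct at h2
      rw [Matrix.mul_apply]
      exact h2
  have d1 : (fromBlocks (1 : Matrix κ κ A) 0 (row (φ ∘ n)) (1 : Matrix Unit Unit A)).det = 1 := by
    rw [Matrix.det_fromBlocks_zero₁₂, Matrix.det_one, Matrix.det_one, mul_one]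
  have dU : U.det * U.det = 1 := by rw [← Matrix.det_mul, hUU, Matrix.det_one]
  have dW : W.det = 1 := det_one_add_vec _ _ hone
  rw [← e2, Matrix.det_mul, Matrix.det_mul, Matrix.det_fromBlocks_zero₁₂,
    Matrix.det_fromBlocks_zero₁₂, ← e1, Matrix.det_mul, d1, ← hP, hPd, Matrix.det_mul, dW,
    Matrix.det_one]
  linear_combination (φ (QB m n t c f g).det) * dU

end

end Pool.Agent.L0h61.T5
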