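import Pool.Agent.L0h4.T3.C2

/-!
# The converse for `y² = x³ - 8 m³`: the prime two
-/

set_option autoImplicit false
set_option linter.unusedSectionVars false

namespace Pool.Agent.L0h61.T5

open Pool.Agent.Y696 Pool.Agent.Y715.T.Lat Pool.Agent.W192.HK
open Pool.Agent.L0h86.F3
open Pool.Agent.L0h4.TC (LocZ SqZ PtZ)
open Pool.Agent.L0h4.T3

/-- the elements `p + q ω` with `p ≡ 1` modulo four and `q ≡ 0` or `q ≡ D` modulo eight -/
theorem c2c_main (D : ℤ) {p q : ℤ} (hD : D % 4 = 2) (hp : p % 4 = 1)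
    (hq : q % 8 = 0 ∨ (q - D) % 8 = 0) : SqW ℚ_[2] (p : ℚ_[2]) (q : ℚ_[2]) ∨
      SqW ℚ_[2] (((1 + D : ℚ_[2]) - D) * p - D * q)
        (((1 + D : ℚ_[2]) - D) * q + D * p - D * q) := by
  obtain ⟨c, hc⟩ : ∃ c, p = 1 + 4 * c := ⟨p / 4, by omega⟩
  rcases hq with hq | hq
  · left
    obtain ⟨k, hk⟩ : ∃ k, q = 8 * k := ⟨q / 8, by omega⟩
    refine (sq14 c k).cast ?_ ?_
    · rw [hc]; push_cast; ring
    · rw [hk]; push_cast; ring
  · right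
    obtain ⟨j, hj⟩ : ∃ j, D = 4 * j + 2 := ⟨D / 4, by omega⟩
    obtain ⟨k, hk⟩ : ∃ k, q = D + 8 * k := ⟨(q - D) / 8, by omega⟩
    refine (sq14 (c - (4 * j ^ 2 + 4 * j + 1) - 2 * k * D)
      (j + k + c * (2 * j + 1) - 2 * j ^ 2 - 2 * j - k * D)).cast ?_ ?_
    · rw [hc, hk, hj]; push_cast; ring
    · rw [hc, hk, hj]; push_cast; ring

section
variable {m : ℤ}

/-- **C-2 for `D = -2 m`, the elements prime to two** -/
theorem t_C2C0 (hm : m % 2 = 1) {r s : ℤ} (hr : r % 2 = 0) (hs : s % 4 = 0 ∨ (s + m) % 4 = 0) :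
    Pool.Agent.L0h4.T3.LZ ℚ_[2] (-2 * m) (ez (1 + 2 * r) (2 * s)) := by
  obtain ⟨D, hDm⟩ : ∃ D, D = -2 * m := ⟨_, rfl⟩
  have hD0 : D ≠ 0 := by omega
  rw [← hDm]
  unfold Pool.Agent.L0h4.T3.LZ
  rw [cx_ez, cy_ez]
  obtain ⟨t, ht0, ht⟩ := sq8' ((-m ^ 3 : ℤ) : ℤ_[2])
  push_cast at ht
  have hX : t ^ 2 = (1 + D : ℚ_[2]) * ((1 + D) ^ 2 - 3 * D * (1 + D) + 3 * D ^ 2) := by
    rw [← ht, hDm]
    push_cast
    ring
  have hN : (((1 + 2 * r : ℤ) : ℚ_[2])) ^ 2 - ((1 + 2 * r : ℤ) : ℚ_[2]) * ((2 * s : ℤ) : ℚ_[2]) +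
      ((2 * s : ℤ) : ℚ_[2]) ^ 2 ≠ 0 := by
    have h1 : (1 + 2 * r) ^ 2 - (1 + 2 * r) * (2 * s) + (2 * s) ^ 2 ≠ 0 := by
      intro h0
      have h2 : 2 * (2 * r + 2 * r ^ 2 - (1 + 2 * r) * s + 2 * s ^ 2) = -1 := by linear_combination h0
      omega
    exact_mod_cast h1
  rcases c2c_main D (p := 1 + 2 * r) (q := 2 * s) (by omega) (by omega) (by omega) with h | h
  · exact Or.inl (h.sqz hD0)
  · exact Or.inr (Or.inr (ptw hD0 hN ht0 hX h))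

/-- **C-2 for `D = -2 m`, twice an element prime to two** -/
theorem t_C2C1 (hm : m % 2 = 1) {r s : ℤ}
    (hc : m % 4 = 3 ∧ r % 2 = 0 ∧ (s % 4 = 0 ∨ s % 4 = 1) ∨
      m % 4 = 1 ∧ r % 2 = 1 ∧ (s % 4 = 2 ∨ s % 4 = 3)) :
    Pool.Agent.L0h4.T3.LZ ℚ_[2] (-2 * m) (ez (-2 * (1 + 2 * r)) (-4 * s)) := by
  obtain ⟨D, hDm⟩ : ∃ D, D = -2 * m := ⟨_, rfl⟩
  have hD0 : D ≠ 0 := by omega
  have hDQ : (D : ℚ_[2]) ≠ 0 := by exact_mod_cast hD0
  rw [← hDm]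
  unfold Pool.Agent.L0h4.T3.LZ
  rw [cx_ez, cy_ez]
  obtain ⟨t, ht0, ht⟩ := sq8' ((-m ^ 3 : ℤ) : ℤ_[2])
  push_cast at ht
  have hX : t ^ 2 = (1 + D : ℚ_[2]) * ((1 + D) ^ 2 - 3 * D * (1 + D) + 3 * D ^ 2) := by
    rw [← ht, hDm]
    push_cast
    ring
  have hX0 : (1 + D : ℚ_[2]) ≠ 0 := by
    intro h0
    rw [h0, zero_mul] at hX
    exact ht0 (pow_eq_zero_iff (n := 2) (by norm_num) |>.1 hX)
  have hN : (((-2 * (1 + 2 * r) : ℤ) : ℚ_[2])) ^ 2 -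
      ((-2 * (1 + 2 * r) : ℤ) : ℚ_[2]) * ((-4 * s : ℤ) : ℚ_[2]) +
      ((-4 * s : ℤ) : ℚ_[2]) ^ 2 ≠ 0 := by
    have h1 : (-2 * (1 + 2 * r)) ^ 2 - (-2 * (1 + 2 * r)) * (-4 * s) + (-4 * s) ^ 2 ≠ 0 := by
      intro h0
      have h2 : 8 * (2 * r + 2 * r ^ 2 - (1 + 2 * r) * s + 2 * s ^ 2) = -4 := by linear_combination h0
      omega
    exact_mod_cast h1
  have hp : (-m * (1 + 2 * r - 4 * s)) % 4 = 1 := by
    rw [Int.mul_emod]
    rcases hc with ⟨h1, h2, -⟩ | ⟨h1, h2, -⟩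
    · have e1 : -m % 4 = 1 := by omega
      have e2 : (1 + 2 * r - 4 * s) % 4 = 1 := by omega
      rw [e1, e2]
      rfl
    · have e1 : -m % 4 = 3 := by omega
      have e2 : (1 + 2 * r - 4 * s) % 4 = 3 := by omega
      rw [e1, e2]
      rfl
  have hq : (-m * (2 + 4 * r - 2 * s)) % 8 = 0 ∨ (-m * (2 + 4 * r - 2 * s) - D) % 8 = 0 := by
    rcases hc with ⟨h1, h2, h3 | h3⟩ | ⟨h1, h2, h3 | h3⟩
    · right
      obtain ⟨k, hk⟩ : ∃ k, 2 * r - s = 4 * k := ⟨(2 * r - s) / 4, by omega⟩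
      have e1 : -m * (2 + 4 * r - 2 * s) - D = 8 * (-m * k) := by
        rw [hDm]
        linear_combination (-2 * m) * hk
      omega
    · left
      obtain ⟨k, hk⟩ : ∃ k, 1 + 2 * r - s = 4 * k := ⟨(1 + 2 * r - s) / 4, by omega⟩
      have e1 : -m * (2 + 4 * r - 2 * s) = 8 * (-m * k) := by
        linear_combination (-2 * m) * hk
      omega
    · right
      obtain ⟨k, hk⟩ : ∃ k, 2 * r - s = 4 * k := ⟨(2 * r - s) / 4, by omega⟩
      have e1 : -m * (2 + 4 * r - 2 * s) - D = 8 * (-m * k) := by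
        rw [hDm]
        linear_combination (-2 * m) * hk
      omega
    · left
      obtain ⟨k, hk⟩ : ∃ k, 1 + 2 * r - s = 4 * k := ⟨(1 + 2 * r - s) / 4, by omega⟩
      have e1 : -m * (2 + 4 * r - 2 * s) = 8 * (-m * k) := by
        linear_combination (-2 * m) * hk
      omega
  rcases c2c_main D (by omega) hp hq with h | h
  · right
    left
    refine SqW.sqz0 hD0 ?_
    refine (h.mul (SqW.sq (0 : ℚ_[2]) 2)).cast ?_ ?_
    · rw [hDm]; push_cast; ring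
    · rw [hDm]; push_cast; ring
  · right
    right
    -- translation by the point of order two
    obtain ⟨x, hx⟩ : ∃ x : ℤ, x = -2 * (1 + 2 * r) := ⟨_, rfl⟩
    obtain ⟨y, hy⟩ : ∃ y : ℤ, y = -4 * s := ⟨_, rfl⟩
    rw [← hx, ← hy] at hN ⊢
    set X : ℚ_[2] := 1 + D with hXd
    set Y : ℚ_[2] := t with hYd
    have hY0 : Y ≠ 0 := ht0
    have hY2 : Y ^ 2 ≠ 0 := pow_ne_zero 2 hY0
    refine ptw (X := 3 * D ^ 2 / X) (Y := -(3 * D ^ 2 * Y / X ^ 2)) hD0 hN ?_ ?_ ?_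
    · exact neg_ne_zero.2 (div_ne_zero (mul_ne_zero (mul_ne_zero (by norm_num) (pow_ne_zero 2 hDQ))
        hY0) (pow_ne_zero 2 hX0))
    · have hX' : Y ^ 2 = X * (X ^ 2 - 3 * D * X + 3 * D ^ 2) := hX
      field_simp
      linear_combination hX'
    · have h3 := (h.mul (SqW.sq (0 : ℚ_[2]) 2)).mul (SqW.sq ((X - 2 * D) / Y) (-D / Y))
      have hX' : Y ^ 2 = X * (X ^ 2 - 3 * D * X + 3 * D ^ 2) := hX
      have e1 : (4 : ℚ_[2]) * (((-m * (2 + 4 * r - 2 * s) : ℤ) : ℚ_[2]) -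
          ((-m * (1 + 2 * r - 4 * s) : ℤ) : ℚ_[2])) = -D * (x + y) := by
        rw [hDm, hx, hy]
        push_cast
        ring
      have e2 : (-4 : ℚ_[2]) * ((-m * (1 + 2 * r - 4 * s) : ℤ) : ℚ_[2]) = -D * (2 * y - x) := by
        rw [hDm, hx, hy]
        push_cast
        ring
      generalize ((-m * (1 + 2 * r - 4 * s) : ℤ) : ℚ_[2]) = p at h3 e1 e2
      generalize ((-m * (2 + 4 * r - 2 * s) : ℤ) : ℚ_[2]) = q at h3 e1 e2
      have hp' : p = D * (2 * y - x) / 4 := by linear_combination (-1 / 4 : ℚ_[2]) * e2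
      have hq' : q = D * (y - 2 * x) / 4 := by linear_combination (1 / 4 : ℚ_[2]) * e1 + hp'
      rw [hp', hq'] at h3
      refine h3.cast ?_ ?_
      · push_cast
        field_simp
        linear_combination (-4 * ((x : ℚ_[2]) * (D * 3 - X) - X * y)) * hX'
      · push_cast
        field_simp
        linear_combination (-4 * ((y : ℚ_[2]) * (D * 3 - X) + X * x - X * y)) * hX'

end

end Pool.Agent.L0h61.T5
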