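import Pool.Agent.L0h61.T5.LinC
import Pool.Agent.L0h4.T3.Cnv

/-!
# The symbol of `-2`
-/

set_option autoImplicit false
set_option linter.unusedSectionVars false

open scoped NumberTheorySymbols

namespace Pool.Agent.L0h61.T5

open Pool.Agent.Y696 Pool.Agent.Y715.T.Lat Pool.Agent.W192.HK
open Pool.Agent.L0h86.F3
open Pool.Agent.Y698.SG (lg lg_one lg_neg_one lg_mul sgn_mul sgn_prod ix)
open Pool.Agent.L0h80.F3 (N1_prod ix_cases fx prod_pf sum_bt mem_ix bt_cj cj_neg cj_add cj_ez)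
open Pool.Agent.L0h23.FDE (cI eD cI_mem cI_cI pf_cI)
open Pool.Agent.L0h4.T3 (SG nz nz_ez nz_mul nz_int nz_neg zT TT mem_TT TT_sub sum_TT sg_neg sg_la
  sg_zT nb_self nb_cI z2_self)
open Pool.Agent.L0h23.FR (sy_inert sy_neg_mod D1)
open Pool.Agent.L0h86.F5 (e2 tm g8 Cr8 Sys8)

/-- `0` if `n ≡ 1, 3` modulo eight -/
def k8 (n : ℤ) : ZMod 2 := if n % 8 = 1 ∨ n % 8 = 3 then 0 else 1

lemma k8_mod (n : ℤ) : k8 n = k8 (n % 8) := by
  unfold k8
  rw [Int.emod_emod_of_dvd n (dvd_refl 8)]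

lemma k8_mul {a b : ℤ} (ha : a % 2 = 1) (hb : b % 2 = 1) : k8 (a * b) = k8 a + k8 b := by
  rw [k8_mod (a * b), k8_mod a, k8_mod b, Int.mul_emod]
  have h1 : a % 8 = 1 ∨ a % 8 = 3 ∨ a % 8 = 5 ∨ a % 8 = 7 := by omega
  have h2 : b % 8 = 1 ∨ b % 8 = 3 ∨ b % 8 = 5 ∨ b % 8 = 7 := by omega
  rcases h1 with h1 | h1 | h1 | h1 <;> rcases h2 with h2 | h2 | h2 | h2 <;> rw [h1, h2] <;> decide

lemma k8_sq {a : ℤ} (ha : a % 2 = 1) : k8 (a ^ 2) = 0 := by
  rw [pow_two, k8_mul ha ha]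
  exact z2_self _

lemma j_m2 {n : ℕ} (hn : n % 2 = 1) : (((J(-2 | n) : ℤ) : ℂ) = 1 ∨ ((J(-2 | n) : ℤ) : ℂ) = -1) ∧
    lg ((J(-2 | n) : ℤ) : ℂ) = k8 n := by
  rw [jacobiSym.at_neg_two (Nat.odd_iff.2 hn), ZMod.χ₈'_nat_eq_if_mod_eight, if_neg (by omega)]
  unfold k8
  by_cases h : n % 8 = 1 ∨ n % 8 = 3
  · rw [if_pos h, if_pos (by omega)]
    push_cast
    exact ⟨Or.inl rfl, lg_one⟩
  · rw [if_neg h, if_neg (by omega)]
    push_cast
    exact ⟨Or.inr rfl, lg_neg_one⟩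

/-- the symbol of `-2` at a normalised prime -/
lemma sg_m2' {π : eis} (h : PX π) : SG π (-2) ∧ lg (sy π (-2)) = k8 (nz π) ∧ nz π % 2 = 1 := by
  have em : (-2 : eis) = ((-2 : ℤ) : eis) := by push_cast; rfl
  rcases Pool.Agent.L0h23.FR.PX.cases h with ⟨p, z, b, hd⟩ | ⟨q, hq, hq2, hq3, rfl⟩
  · have hn : nz π = p := by
      rw [hd.rep, nz_ez, hd.eq]
      ring
    have h1 := j_m2 hd.odd
    unfold SG
    rw [em, hd.sy, hn]
    have := hd.odd
    exact ⟨h1.1, h1.2, by omega⟩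
  · have h2 : (-2 : eis) * Pool.Agent.Y696.cj (-2) = ((4 : ℕ) : eis) := by
      have h3 : Pool.Agent.Y696.cj (-2 : eis) = -2 := by
        show cjh (-2 : eis) = _
        rw [map_neg, map_ofNat]
      rw [h3]
      push_cast
      norm_num
    have h3 : (((J(((4 : ℕ) : ℤ) | q)) : ℤ) : ℂ) = 1 := by
      have h4 : ((4 : ℕ) : ℤ) = 2 ^ 2 := by norm_num
      rw [h4, Pool.Agent.L0h23.FR.jsq, Int.cast_one]
      have h5 : Nat.Coprime 2 q := (Nat.coprime_primes Nat.prime_two hq).2 (by omega)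
      exact_mod_cast Nat.isCoprime_iff_coprime.2 h5
    unfold SG
    rw [sy_neg_mod, sy_inert hq hq2 hq3 _ h2, h3, nz_neg, ← Int.cast_natCast (R := eis), nz_int,
      lg_one, k8_sq (by omega)]
    refine ⟨Or.inl rfl, rfl, ?_⟩
    rw [pow_two, Int.mul_emod]
    have h5 : (q : ℤ) % 2 = 1 := by omega
    rw [h5]
    rfl

section
variable {Q P : Finset ℕ} {ϖ : ℕ → eis}

lemma sg_m2 (h : Dt Q P ϖ) {j : ℕ × Bool} (hj : j ∈ ix Q P) : SG (pf Q ϖ j) (-2) ∧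
    lg (sy (pf Q ϖ j) (-2)) = e2 (pf Q ϖ) j := ⟨(sg_m2' ((fx h).pd j hj)).1, rfl⟩

lemma e2_k8 (h : Dt Q P ϖ) {j : ℕ × Bool} (hj : j ∈ ix Q P) :
    e2 (pf Q ϖ) j = k8 (nz (pf Q ϖ j)) := (sg_m2' ((fx h).pd j hj)).2.1

lemma e2_cI (j : ℕ × Bool) : e2 (pf Q ϖ) (cI Q j) = e2 (pf Q ϖ) j := by
  unfold e2
  have h3 : Pool.Agent.Y696.cj (-2 : eis) = -2 := by
    show cjh (-2 : eis) = _
    rw [map_neg, map_ofNat]
  rw [pf_cI]
  conv_lhs => rw [← h3]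
  rw [Pool.Agent.L0h80.F3.sy_cj]

lemma e2_fix (h : Dt Q P ϖ) {j : ℕ × Bool} (hj : j ∈ ix Q P) (hc : cI Q j = j) :
    e2 (pf Q ϖ) j = 0 := by
  have hQ : j.1 ∈ Q := by
    by_contra h1
    unfold cI at hc
    rw [if_neg h1] at hc
    have h2 := congrArg Prod.snd hc
    simp at h2
  rw [e2_k8 h hj]
  have hpf : pf Q ϖ j = -((j.1 : ℕ) : eis) := if_pos hQ
  rw [hpf, nz_neg, ← Int.cast_natCast (R := eis), nz_int]
  have h2 := (h.q _ hQ).odd
  exact k8_sq (by omega)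

/-- the symbols of `-2` at the primes of `T` -/
lemma sum_e2 (h : Dt Q P ϖ) {T : Finset (ℕ × Bool)} (hT : T ⊆ ix Q P) :
    ∑ i ∈ T, e2 (pf Q ϖ) i = k8 (nz (zT Q ϖ T)) ∧ nz (zT Q ϖ T) % 2 = 1 := by
  classical
  induction T using Finset.induction_on with
  | empty =>
    unfold zT
    rw [Finset.prod_empty, Finset.sum_empty]
    have h1 : nz (1 : eis) = 1 := by
      have := nz_int 1
      push_cast at this
      simpa using this
    rw [h1]
    exact ⟨rfl, rfl⟩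
  | insert q S hq ih =>
    obtain ⟨ih1, ih2⟩ := ih ((Finset.subset_insert _ _).trans hT)
    have hqi : q ∈ ix Q P := hT (Finset.mem_insert_self _ _)
    have h1 := (sg_m2' ((fx h).pd q hqi)).2.2
    have h2 : zT Q ϖ (insert q S) = pf Q ϖ q * zT Q ϖ S := by
      unfold zT
      rw [Finset.prod_insert hq]
    rw [Finset.sum_insert hq, ih1, h2, nz_mul, k8_mul h1 ih2, e2_k8 h hqi]
    refine ⟨rfl, ?_⟩
    rw [Int.mul_emod, h1, ih2]
    rfl

/-- the sum of the reductions -/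
lemma sum_btm (h : Dt Q P ϖ) {m : ℕ} (hm : m = ∏ q ∈ Q ∪ P, q) (h2 : m % 2 = 1) :
    ∑ i ∈ ix Q P, bt (pf Q ϖ i) = F4.of (eD m + 1 + tm m) := by
  rw [← (N1_prod (S := ix Q P) (f := pf Q ϖ) fun i hi => ((fx h).pd i hi).n1).2]
  unfold eD tm
  have key : ∀ (n k : ℤ), n = 1 + 2 * k → bt (n : eis) = F4.of (k : ZMod 2) := by
    intro n k hk
    have e1 : (n : eis) = 1 + 2 * (k : eis) := by
      rw [hk]
      push_cast
      ring
    rw [e1, bt_eq, ← ez_int, rho_ez]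
    rw [Int.cast_zero]
    rfl
  have ev : ∀ x : ℤ, x % 2 = 0 → (x : ZMod 2) = 0 := fun x hx =>
    (ZMod.intCast_zmod_eq_zero_iff_dvd x 2).2 (by push_cast; omega)
  have od : ∀ x : ℤ, x % 2 = 1 → (x : ZMod 2) = 1 := fun x hx => by
    have : (x : ZMod 2) = ((1 : ℤ) : ZMod 2) := by
      rw [ZMod.intCast_eq_intCast_iff]
      show x % 2 = 1 % 2
      omega
    rw [this, Int.cast_one]
  rcases prod_pf h hm with ⟨h5, h6⟩ | ⟨h5, h6⟩
  · rw [h5, if_pos h6, ← Int.cast_natCast (R := eis), key m ((m - 1) / 2) (by omega)]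
    congr 1
    by_cases h7 : m % 4 = 1
    · rw [if_pos h7, ev _ (by omega)]
      decide
    · rw [if_neg h7, od _ (by omega)]
      decide
  · rw [h5, if_neg (by omega), ← Int.cast_natCast (R := eis), ← Int.cast_neg,
      key (-m) ((-m - 1) / 2) (by omega)]
    congr 1
    by_cases h7 : m % 4 = 1
    · rw [if_pos h7, od _ (by omega)]
      decide
    · rw [if_neg h7, ev _ (by omega)]
      decide

end

end Pool.Agent.L0h61.T5
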