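import Pool.Agent.L0h61.T5.E2
import Pool.Agent.L0h61.T5.C2C

/-!
# The converse for `y² = x³ - 8 m³`: the element of a solution of the system
-/

set_option autoImplicit false
set_option linter.unusedSectionVars false

namespace Pool.Agent.L0h61.T5

open Pool.Agent.Y696 Pool.Agent.Y715.T.Lat Pool.Agent.W192.HK
open Pool.Agent.L0h86.F3
open Pool.Agent.L0h4.TC (LocZ SqZ PtZ)
open Pool.Agent.Y698.SG (lg lg_one lg_neg_one lg_mul sgn_mul sgn_prod ix)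
open Pool.Agent.L0h80.F3 (N1_prod ix_cases fx prod_pf sum_bt mem_ix bt_cj cj_neg cj_add cj_ez)
open Pool.Agent.L0h23.FDE (cI eD cI_mem cI_cI pf_cI)
open Pool.Agent.L0h4.T3 (SG nz nz_ez nz_mul nz_int nz_neg zT TT mem_TT TT_sub sum_TT sg_neg sg_la
  sg_zT nb_self nb_cI z2_self z2 cx cy cx_ez cy_ez D_ne' N1_zT nz_zT eps_prod D3 zT_prime la_zT la_nzT)
open Pool.Agent.L0h86.F5 (e2 tm g8 cB rB Cr8 Sys8)

variable {Q P : Finset ℕ} {ϖ : ℕ → eis}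

/-- a solution of the system -/
structure Kc (Q P : Finset ℕ) (ϖ : ℕ → eis) (ε t : ZMod 2) (x : ℕ × Bool → ZMod 2) (a : ZMod 2) :
    Prop where
  eq : ∀ j ∈ ix Q P, ∑ i ∈ (ix Q P).erase j, mm (pf Q ϖ) i j * x i +
      (∑ i ∈ (ix Q P).erase j, mm (pf Q ϖ) i j + e2 (pf Q ϖ) j + ε * F4.tr (bt (pf Q ϖ j)) +
        F4.tr (F4.w * bt (pf Q ϖ j))) * x j +
      F4.tr (bt (pf Q ϖ j)) * x (cI Q j) + e2 (pf Q ϖ) j * a = 0
  la : ∑ i ∈ ix Q P, (bt (pf Q ϖ i)).re * x i + t * a = 0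
  nz : (∃ i ∈ ix Q P, x i ≠ 0) ∨ a ≠ 0

lemma mm_cI (i j : ℕ × Bool) : mm (pf Q ϖ) (cI Q i) (cI Q j) = mm (pf Q ϖ) i j := by
  unfold mm
  rw [pf_cI, pf_cI, Pool.Agent.L0h80.F3.sy_cj]

/-- the criterion and the system -/
theorem cr8_sys (h : Dt Q P ϖ) {m : ℕ} (hm : m = ∏ q ∈ Q ∪ P, q) (h2 : m % 2 = 1) :
    Cr8 Q P ϖ m ↔ Sys8 (ix Q P) (cI Q) (fun i => bt (pf Q ϖ i)) (mm (pf Q ϖ)) (e2 (pf Q ϖ))
      (eD m) (tm m) := by
  have hX := fx h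
  have h1 := linc (ix Q P) (cI Q) (fun i => bt (pf Q ϖ i)) (mm (pf Q ϖ)) (e2 (pf Q ϖ))
    (eD m) (tm m) (fun i hi => cI_mem hi) (fun i _ => cI_cI i)
    (fun i hi => by
      show bt (pf Q ϖ (cI Q i)) = _
      rw [pf_cI, bt_cj (hX.pd i hi).n1])
    (fun i _ j _ _ => mm_cI i j)
    (fun i hi j hj hij => Pool.Agent.L0h23.FR.t_REC _ _ (hX.pd i hi) (hX.pd j hj)
      (hX.ne i hi j hj hij))
    (fun i _ => e2_cI i) (fun i hi hc => e2_fix h hi hc) (sum_btm h hm h2)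
  rw [← h1]
  unfold Cr8 g8
  have e1 : cB (pf Q ϖ) (tm m) = cO (fun i => bt (pf Q ϖ i)) (tm m) := by
    funext o
    cases o <;> rfl
  have e2' : rB (pf Q ϖ) (tm m) = rO (fun i => bt (pf Q ϖ i)) (mm (pf Q ϖ)) (e2 (pf Q ϖ)) (tm m) := by
    funext o o'
    cases o <;> cases o' <;> rfl
  rw [e1, e2']

/-- a solution -/
lemma exists_Kc (h : Dt Q P ϖ) {ε t : ZMod 2}
    (hns : ¬ Sys8 (ix Q P) (cI Q) (fun i => bt (pf Q ϖ i)) (mm (pf Q ϖ)) (e2 (pf Q ϖ)) ε t) :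
    ∃ x a, Kc Q P ϖ ε t x a := by
  classical
  have hX := fx h
  unfold Sys8 at hns
  push Not at hns
  obtain ⟨x, a, h1, h2, h3⟩ := hns
  have s0 : ∀ (s : Finset (ℕ × Bool)) (hs : ∀ i ∈ s, cI Q i ∈ s) (f : ℕ × Bool → ZMod 2),
      ∑ i ∈ s, f i = ∑ i ∈ s, f (cI Q i) := by
    intro s hs f
    refine Finset.sum_nbij' (cI Q) (cI Q) hs hs (fun j _ => cI_cI j) (fun j _ => cI_cI j) ?_
    intro i _
    rw [cI_cI]
  have hw : ∀ j ∈ ix Q P, F4.tr (F4.w * bt (pf Q ϖ (cI Q j))) =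
      F4.tr (F4.w * bt (pf Q ϖ j)) + F4.tr (bt (pf Q ϖ j)) := by
    intro j hj
    rw [pf_cI, bt_cj (hX.pd j hj).n1]
    generalize bt (pf Q ϖ j) = b
    revert b
    decide
  refine ⟨fun i => x (cI Q i), a, ?_, ?_, ?_⟩
  · intro j hj
    have h4 := h1 (cI Q j) (cI_mem hj)
    have s1 : ∀ f : ℕ × Bool → ZMod 2, ∑ i ∈ (ix Q P).erase (cI Q j), f i =
        ∑ i ∈ (ix Q P).erase j, f (cI Q i) := by
      intro f
      refine Finset.sum_nbij' (cI Q) (cI Q) ?_ ?_ (fun j _ => cI_cI j) (fun j _ => cI_cI j) ?_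
      · intro i hi
        rw [Finset.mem_erase] at hi ⊢
        exact ⟨fun h2 => hi.1 (by rw [← h2, cI_cI]), cI_mem hi.2⟩
      · intro i hi
        rw [Finset.mem_erase] at hi ⊢
        exact ⟨fun h2 => hi.1 (by rw [← cI_cI (Q := Q) i, h2, cI_cI]), cI_mem hi.2⟩
      · intro i _
        rw [cI_cI]
    rw [s1, s1, cI_cI] at h4
    have s2 : ∑ i ∈ (ix Q P).erase j, mm (pf Q ϖ) (cI Q i) (cI Q j) * x (cI Q i) =
        ∑ i ∈ (ix Q P).erase j, mm (pf Q ϖ) i j * x (cI Q i) :=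
      Finset.sum_congr rfl fun i hi => by rw [mm_cI]
    have s3 : ∑ i ∈ (ix Q P).erase j, mm (pf Q ϖ) (cI Q i) (cI Q j) =
        ∑ i ∈ (ix Q P).erase j, mm (pf Q ϖ) i j :=
      Finset.sum_congr rfl fun i hi => by rw [mm_cI]
    rw [s2, s3, nb_cI h hj, hw j hj, e2_cI] at h4
    rw [cI_cI]
    have s5 := z2_self (F4.tr (bt (pf Q ϖ j)) * x (cI Q j))
    linear_combination h4 - s5
  · rw [s0 _ (fun i hi => cI_mem hi)] at h2
    have h4 : ∑ i ∈ ix Q P, F4.tr (F4.w * bt (pf Q ϖ (cI Q i))) * x (cI Q i) =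
        ∑ i ∈ ix Q P, (bt (pf Q ϖ i)).re * x (cI Q i) := by
      refine Finset.sum_congr rfl fun i hi => ?_
      rw [hw i hi]
      congr 1
      generalize bt (pf Q ϖ i) = b
      revert b
      decide
    rw [h4] at h2
    exact h2
  · by_cases h4 : ∀ i ∈ ix Q P, x i = 0
    · exact Or.inr (h3 h4)
    · left
      push Not at h4
      obtain ⟨i, hi, h5⟩ := h4
      exact ⟨cI Q i, cI_mem hi, by rwa [cI_cI]⟩

variable {ε t a : ZMod 2} {x : ℕ × Bool → ZMod 2}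

/-- the element -/
noncomputable def zC (Q : Finset ℕ) (ϖ : ℕ → eis) (T : Finset (ℕ × Bool)) (a : ZMod 2) : eis :=
  (-2) ^ a.val * zT Q ϖ T

lemma sy_outC (h : Dt Q P ϖ) (hK : Kc Q P ϖ ε t x a) {j : ℕ × Bool} (hj : j ∈ ix Q P)
    (h0 : x j = 0) :
    sy (pf Q ϖ j) ((-1) ^ (x (cI Q j)).val * zC Q ϖ (TT Q P x) a) = 1 := by
  have hπ := ((fx h).pd j hj).pr
  have hjT : j ∉ TT Q P x := fun h1 => by
    have := (mem_TT.1 h1).2
    rw [h0] at this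
    exact absurd this (by decide)
  obtain ⟨a1, a2⟩ := (sg_neg h hj).1.powv hπ (x (cI Q j))
  obtain ⟨d1, d2⟩ := (sg_m2 h hj).1.powv hπ a
  obtain ⟨b1, b2⟩ := sg_zT h (TT_sub x) hj hjT
  obtain ⟨f1, f2⟩ := d1.mul hπ b1
  obtain ⟨c1, c2⟩ := a1.mul hπ f1
  refine c1.one ?_
  have h1 := hK.eq j hj
  rw [sum_TT (Finset.erase_subset _ _), h0, mul_zero, add_zero] at h1
  have e1 : TT Q P x ∩ (ix Q P).erase j = TT Q P x := by
    rw [Finset.inter_eq_left]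
    intro i hi
    exact Finset.mem_erase.2 ⟨fun h2 => hjT (h2 ▸ hi), TT_sub x hi⟩
  rw [e1] at h1
  rw [c2, a2, f2, d2, b2, (sg_neg h hj).2, (sg_m2 h hj).2]
  linear_combination h1

lemma sy_inC (h : Dt Q P ϖ) (hK : Kc Q P ϖ ε t x a) {j : ℕ × Bool} (hj : j ∈ ix Q P)
    (h0 : x j = 1) {D : ℤ} (hD : (D : eis) = (-2) * ((-1) ^ ε.val * ∏ i ∈ ix Q P, pf Q ϖ i)) :
    ∃ z₁ D₁ : eis, zC Q ϖ (TT Q P x) a = pf Q ϖ j * z₁ ∧ (D : eis) = pf Q ϖ j * D₁ ∧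
      sy (pf Q ϖ j) ((-1) ^ (x (cI Q j)).val * (la * (D₁ * z₁))) = 1 := by
  classical
  have hπ := ((fx h).pd j hj).pr
  have hjT : j ∈ TT Q P x := mem_TT.2 ⟨hj, h0⟩
  refine ⟨(-2) ^ a.val * zT Q ϖ ((TT Q P x).erase j),
    (-2) * ((-1) ^ ε.val * zT Q ϖ ((ix Q P).erase j)), ?_, ?_, ?_⟩
  · unfold zC zT
    rw [← Finset.mul_prod_erase _ _ hjT]
    ring
  · rw [hD]
    unfold zT
    rw [← Finset.mul_prod_erase _ _ hj]
    ring
  · obtain ⟨a1, a2⟩ := (sg_neg h hj).1.powv hπ (x (cI Q j))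
    obtain ⟨b1, b2⟩ := (sg_neg h hj).1.powv hπ ε
    obtain ⟨c1, c2⟩ := sg_zT h (U := (ix Q P).erase j) (Finset.erase_subset _ _) hj
      (Finset.notMem_erase _ _)
    obtain ⟨d1, d2⟩ := sg_zT h (U := (TT Q P x).erase j)
      ((Finset.erase_subset _ _).trans (TT_sub x)) hj (Finset.notMem_erase _ _)
    obtain ⟨l1, l2⟩ := (sg_m2 h hj).1.powv hπ a
    obtain ⟨m1, m2⟩ := l1.mul hπ d1
    obtain ⟨e1, e2⟩ := b1.mul hπ c1
    obtain ⟨n1, n2⟩ := (sg_m2 h hj).1.mul hπ e1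
    obtain ⟨f1, f2⟩ := n1.mul hπ m1
    obtain ⟨g1, g2⟩ := (sg_la h hj).1.mul hπ f1
    obtain ⟨k1, k2⟩ := a1.mul hπ g1
    refine k1.one ?_
    have h1 := hK.eq j hj
    rw [sum_TT (Finset.erase_subset _ _), h0, mul_one] at h1
    have e3 : TT Q P x ∩ (ix Q P).erase j = (TT Q P x).erase j := by
      ext i
      rw [Finset.mem_inter, Finset.mem_erase, Finset.mem_erase]
      constructor
      · rintro ⟨h2, h3, -⟩
        exact ⟨h3, h2⟩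
      · rintro ⟨h2, h3⟩
        exact ⟨h3, h2, TT_sub x h3⟩
    rw [e3] at h1
    rw [k2, a2, g2, f2, n2, e2, b2, c2, m2, l2, d2, (sg_neg h hj).2, (sg_la h hj).2,
      (sg_m2 h hj).2]
    linear_combination h1

/-- the sum of the equations -/
lemma sum_eqC (h : Dt Q P ϖ) (hK : Kc Q P ϖ ε t x a)
    (hs : ∑ i ∈ ix Q P, bt (pf Q ϖ i) = F4.of (ε + 1 + t)) :
    k8 (nz (zT Q ϖ (TT Q P x))) + t * (bt (zT Q ϖ (TT Q P x))).im +
      (bt (zT Q ϖ (TT Q P x))).re = 0 ∧ (bt (zT Q ϖ (TT Q P x))).re + t * a = 0 := by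
  classical
  have hX := fx h
  have e1 : bt (zT Q ϖ (TT Q P x)) = ∑ i ∈ TT Q P x, bt (pf Q ϖ i) :=
    (N1_prod fun i hi => (hX.pd i (TT_sub x hi)).n1).2
  have e2r := sum_TT (x := x) (Finset.Subset.refl (ix Q P)) fun i => (bt (pf Q ϖ i)).re
  have e2i := sum_TT (x := x) (Finset.Subset.refl (ix Q P)) fun i => (bt (pf Q ϖ i)).im
  have e2e := sum_TT (x := x) (Finset.Subset.refl (ix Q P)) fun i => e2 (pf Q ϖ) i
  rw [Finset.inter_eq_left.2 (TT_sub x)] at e2r e2i e2e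
  rw [e1, Pool.Agent.L0h61.T3.re_sum, Pool.Agent.L0h61.T3.im_sum, ← (sum_e2 h (TT_sub x)).1,
    ← e2r, ← e2i, ← e2e]
  refine ⟨?_, hK.la⟩
  -- the sum of the equations
  have s0 : ∑ j ∈ ix Q P, (∑ i ∈ (ix Q P).erase j, mm (pf Q ϖ) i j * x i +
      (∑ i ∈ (ix Q P).erase j, mm (pf Q ϖ) i j + e2 (pf Q ϖ) j + ε * F4.tr (bt (pf Q ϖ j)) +
        F4.tr (F4.w * bt (pf Q ϖ j))) * x j +
      F4.tr (bt (pf Q ϖ j)) * x (cI Q j) + e2 (pf Q ϖ) j * a) = 0 := Finset.sum_eq_zero hK.eq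
  have s1 : ∑ j ∈ ix Q P, ∑ i ∈ (ix Q P).erase j, mm (pf Q ϖ) i j * x i =
      ∑ j ∈ ix Q P, (∑ i ∈ (ix Q P).erase j, mm (pf Q ϖ) j i) * x j := by
    have k1 : ∀ (f : ℕ × Bool → ℕ × Bool → ZMod 2), ∑ j ∈ ix Q P, ∑ i ∈ (ix Q P).erase j, f i j =
        ∑ j ∈ ix Q P, ∑ i ∈ (ix Q P).erase j, f j i := by
      intro f
      refine Finset.sum_comm' ?_
      intro a b
      simp only [Finset.mem_erase]
      tauto
    rw [k1 fun i j => mm (pf Q ϖ) i j * x i]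
    refine Finset.sum_congr rfl fun j _ => ?_
    rw [Finset.sum_mul]
  have htr : ∀ (s : Finset (ℕ × Bool)) (f : ℕ × Bool → F4), F4.tr (∑ i ∈ s, f i) =
      ∑ i ∈ s, F4.tr (f i) := fun s f => Pool.Agent.L0h61.T3.im_sum s f
  have s2 : ∀ j ∈ ix Q P, (∑ i ∈ (ix Q P).erase j, mm (pf Q ϖ) j i) +
      ∑ i ∈ (ix Q P).erase j, mm (pf Q ϖ) i j =
      (ε + 1 + t) * F4.tr (bt (pf Q ϖ j)) + F4.tr (bt (pf Q ϖ j)) := by
    intro j hj
    rw [← Finset.sum_add_distrib]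
    have k1 : ∀ i ∈ (ix Q P).erase j, mm (pf Q ϖ) j i + mm (pf Q ϖ) i j =
        F4.tr (bt (pf Q ϖ j) * bt (pf Q ϖ i)) := by
      intro i hi
      obtain ⟨h1, h2⟩ := Finset.mem_erase.1 hi
      exact Pool.Agent.L0h23.FR.t_REC _ _ (hX.pd j hj) (hX.pd i h2) (hX.ne j hj i h2 (Ne.symm h1))
    rw [Finset.sum_congr rfl k1, ← htr, ← Finset.mul_sum,
      Finset.sum_erase_eq_sub hj, hs]
    have k2 : ∀ (b : F4) (e : ZMod 2), (b * (F4.of e - b)).tr = e * b.tr + b.tr := by decide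
    exact k2 _ _
  have s3 : ∑ j ∈ ix Q P, F4.tr (bt (pf Q ϖ j)) * x (cI Q j) =
      ∑ j ∈ ix Q P, F4.tr (bt (pf Q ϖ j)) * x j := by
    refine Finset.sum_nbij' (cI Q) (cI Q) (fun j hj => cI_mem hj) (fun j hj => cI_mem hj)
      (fun j _ => cI_cI j) (fun j _ => cI_cI j) ?_
    intro j hj
    rw [nb_cI h hj]
  have s4 : ∑ j ∈ ix Q P, e2 (pf Q ϖ) j * a = 0 := by
    rw [← Finset.sum_mul]
    have k : ∑ j ∈ ix Q P, e2 (pf Q ϖ) j = 0 := by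
      refine Finset.sum_involution (fun i _ => cI Q i) ?_ ?_ (fun i hi => cI_mem hi)
        (fun i _ => cI_cI i)
      · intro i hi
        rw [e2_cI]
        exact z2_self _
      · intro i hi hne e
        exact hne (e2_fix h hi e)
    rw [k, zero_mul]
  rw [Finset.sum_add_distrib, Finset.sum_add_distrib, Finset.sum_add_distrib, s1, s3, s4, add_zero,
    ← Finset.sum_add_distrib, ← Finset.sum_add_distrib] at s0
  rw [← s0, Finset.mul_sum, ← Finset.sum_add_distrib, ← Finset.sum_add_distrib]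
  refine Finset.sum_congr rfl fun j hj => ?_
  have h2 := s2 j hj
  have h3 := z2_self (ε * F4.tr (bt (pf Q ϖ j)) * x j)
  have h4 := z2_self (F4.tr (bt (pf Q ϖ j)) * x j)
  have h5 : F4.tr (F4.w * bt (pf Q ϖ j)) + F4.tr (bt (pf Q ϖ j)) = (bt (pf Q ϖ j)).re := by
    generalize bt (pf Q ϖ j) = b
    revert b
    decide
  have h6 : (bt (pf Q ϖ j)).im = F4.tr (bt (pf Q ϖ j)) := rfl
  rw [h6, ← h5]
  linear_combination -h2 * x j - h3 - h4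

end Pool.Agent.L0h61.T5
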